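import Pool.Agent.H12.TG.Red
import Pool.Agent.H12.TG.PartI
import Pool.Agent.H84.PG.LemF
import Pool.Agent.H36.PP.Fin

/-!
# MP_e8b852_al: the reduction inside a class of factors

`FQ Q` a property of groups which passes to subgroups and quotients.  A counterexample whose two
factors have the property gives a residually finite just-non-AP counterexample of the same kind
(`redQ`).
-/

set_option autoImplicit false

universe u

namespace H36.PD

open Subgroup H36.PP H36.PQ H84.PG H12.TG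

/-- a cover by finitely many double cosets -/
theorem dc_of_cover {G : Type*} [Group G] {A B : Subgroup G} {F : Set G} (hF : F.Finite)
    (h : ∀ g : G, ∃ a ∈ A, ∃ f ∈ F, ∃ b ∈ B, g = a * f * b) : DC ⊤ A B :=
  ⟨le_top, le_top, F, hF, fun _ _ => mem_top _, fun x _ => h x⟩

/-- a property of groups which passes to groups that embed and to homomorphic images -/
structure FQ (Q : ∀ (X : Type u) [Group X], Prop) : Prop where
  emb : ∀ (X Y : Type u) [Group X] [Group Y], Emb X Y → Q Y → Q X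
  im : ∀ (X Y : Type u) [Group X] [Group Y] (f : X →* Y), Function.Surjective f → Q X → Q Y

/-- locally graded counterexamples with factors in the class -/
def ClsQ (Q : ∀ (X : Type u) [Group X], Prop) (X : Type u) [Group X] (A B : Subgroup X) : Prop :=
  DC ⊤ A B ∧ AP A ∧ AP B ∧ Q A ∧ Q B ∧ LG X ∧ ¬ AP X

theorem clsQ_min {Q : ∀ (X : Type u) [Group X], Prop} (hQ : FQ Q) {X : Type u} [Group X]
    {A B : Subgroup X} (h : ClsQ Q X A B)
    (hmin : ∀ (Y : Type u) (_ : Group Y) (A' B' : Subgroup Y), ClsQ Q Y A' B' →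
      ht A + ht B ≤ ht A' + ht B') : MinD X A B := by
  obtain ⟨hf, hA, hB, hQA, hQB, hLG, hG⟩ := h
  refine ⟨hf, hA, hB, hG, ?_⟩
  intro X' A' B' hf' hA₀ hB₀ hlt
  have hA' : AP A' := hA₀.ap hA
  have hB' : AP B' := hB₀.ap hB
  by_contra hX'
  have hAX := hf'.1
  have hBX := hf'.2.1
  have hcls : ClsQ Q X' (A'.subgroupOf X') (B'.subgroupOf X') := by
    exact ⟨dc_sub hf', (AP.congr (subgroupOfEquivOfLe hAX)).mpr hA',
      (AP.congr (subgroupOfEquivOfLe hBX)).mpr hB',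
      hQ.emb _ _ ((Emb.subgroupOf A' X').trans hA₀) hQA,
      hQ.emb _ _ ((Emb.subgroupOf B' X').trans hB₀) hQB, hLG.subgroup X', hX'⟩
  have := hmin X' inferInstance _ _ hcls
  rw [ht_congr (Subgroup.subgroupOfEquivOfLe hAX), ht_congr (Subgroup.subgroupOfEquivOfLe hBX)]
    at this
  omega

/-- the reduction -/
theorem redQ {Q : ∀ (X : Type u) [Group X], Prop} (hQ : FQ Q) {G : Type u} [Group G]
    (A B : Subgroup G) (hcls : ClsQ Q G A B) :
    ∃ (X : Type u) (_ : Group X) (A' B' : Subgroup X), DC ⊤ A' B' ∧ AP A' ∧ AP B' ∧ Q A' ∧ Q B' ∧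
      RF X ∧ Group.FG X ∧ (∀ (N : Subgroup X) [N.Normal], N ≠ ⊥ → N.FG ∧ AP (X ⧸ N)) ∧
      ∃ (N : Subgroup X) (_ : N.Normal), Infinite N ∧ N.FG ∧ AP (X ⧸ N) ∧ NoVZ N := by
  classical
  have H : MinHyp.{u} := fun _ _ _ _ h N _ => ⟨dichD h N, lem_f h N⟩
  -- a minimal member of the class
  let P : ℕ → Prop := fun k => ∃ (X : Type u) (_ : Group X) (A B : Subgroup X),
    ClsQ Q X A B ∧ ht A + ht B = k
  have hex : ∃ k, P k := ⟨_, G, inferInstance, A, B, hcls, rfl⟩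
  obtain ⟨Y, hY, A₁, B₁, hcls, hsum⟩ := Nat.find_spec hex
  have hmin : ∀ (Z : Type u) (_ : Group Z) (A' B' : Subgroup Z), ClsQ Q Z A' B' →
      ht A₁ + ht B₁ ≤ ht A' + ht B' := by
    intro Z hZ A' B' h
    rw [hsum]
    exact Nat.find_min' hex ⟨Z, hZ, A', B', h, rfl⟩
  have hmce := clsQ_min hQ hcls hmin
  obtain ⟨M, hMn, hMap, hMmax⟩ := joinD (fun N _ hN => ((H Y A₁ B₁ hmce N).1 hN).1)
    (fun N _ hN => (H Y A₁ B₁ hmce N).2 hN)
  obtain ⟨hf₁, hA₁, hB₁, hQA₁, hQB₁, hLG₁, hG₁⟩ := hcls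
  -- the quotient
  let π : Y →* Y ⧸ M := QuotientGroup.mk' M
  have hπ : Function.Surjective π := QuotientGroup.mk'_surjective M
  have hLGq : LG (Y ⧸ M) := hLG₁.quotient M hMap
  have hGq : ¬ AP (Y ⧸ M) := fun h => hG₁ (AP.ext M hMap h)
  have hclsq : ClsQ Q (Y ⧸ M) (A₁.map π) (B₁.map π) := by
    refine ⟨?_, ?_, ?_, ?_, ?_, hLGq, hGq⟩
    · have h1 := H12.TG.dc_map hf₁ π
      rwa [Subgroup.map_top_of_surjective _ hπ] at h1
    · exact AP.of_surjective (π.subgroupMap A₁) (π.subgroupMap_surjective A₁) hA₁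
    · exact AP.of_surjective (π.subgroupMap B₁) (π.subgroupMap_surjective B₁) hB₁
    · exact hQ.im _ _ (π.subgroupMap A₁) (π.subgroupMap_surjective A₁) hQA₁
    · exact hQ.im _ _ (π.subgroupMap B₁) (π.subgroupMap_surjective B₁) hQB₁
  have hle1 : ht (A₁.map π : Subgroup (Y ⧸ M)) ≤ ht A₁ :=
    ht_le_of_surjective hA₁ (π.subgroupMap A₁) (π.subgroupMap_surjective A₁)
  have hle2 : ht (B₁.map π : Subgroup (Y ⧸ M)) ≤ ht B₁ :=
    ht_le_of_surjective hB₁ (π.subgroupMap B₁) (π.subgroupMap_surjective B₁)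
  have hmceq : MinD (Y ⧸ M) (A₁.map π) (B₁.map π) :=
    clsQ_min hQ hclsq fun Z hZ A' B' h => (add_le_add hle1 hle2).trans (hmin Z hZ A' B' h)
  -- normal subgroups
  have hNorm : ∀ (N : Subgroup (Y ⧸ M)) [N.Normal], N ≠ ⊥ → N.FG ∧ AP ((Y ⧸ M) ⧸ N) := by
    intro N hN hne
    have hnap : ¬ AP N := by
      intro hNap
      have h1 : AP (N.comap π : Subgroup Y) := ThmB_comap M hMap N hNap
      have h2 : N.comap π ≤ M := hMmax _ inferInstance h1
      apply hne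
      rw [eq_bot_iff]
      intro x hx
      obtain ⟨g, rfl⟩ := hπ x
      have h3 : g ∈ M := h2 hx
      rw [mem_bot]
      exact (QuotientGroup.eq_one_iff g).mpr h3
    have h4 := ((H _ _ _ hmceq N).1 hnap).1
    exact ⟨(H _ _ _ hmceq N).2 h4, h4⟩
  have hfg : Group.FG (Y ⧸ M) := by
    have h1 : AP ((Y ⧸ M) ⧸ (⊤ : Subgroup (Y ⧸ M))) := by
      have : Subsingleton ((Y ⧸ M) ⧸ (⊤ : Subgroup (Y ⧸ M))) :=
        QuotientGroup.subsingleton_quotient_top
      exact AP.of_finite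
    exact Group.fg_def.2 ((H _ _ _ hmceq ⊤).2 h1)
  obtain ⟨hf₂, hA₂, hB₂, hQA₂, hQB₂, -, hG₂⟩ := hclsq
  exact ⟨Y ⧸ M, inferInstance, A₁.map π, B₁.map π, hf₂, hA₂, hB₂, hQA₂, hQB₂,
    ThmB_rf hLGq hNorm, hfg, hNorm, exists_fab' hG₂ (ht (A₁.map π : Subgroup (Y ⧸ M)))
      (fun N _ hN => ((H _ _ _ hmceq N).1 hN).2) (fun N _ hN => (H _ _ _ hmceq N).2 hN)⟩

end H36.PD
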