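import Pool.Agent.H12.TG.Red
import Pool.Agent.H12.TG.PartI
import Pool.Agent.H84.PG.LemF
import Pool.Agent.H36.PP.Fin
import Pool.Agent.H36.PD.RedQ

/-!
# MP_e8b852_al: arbitrary almost polycyclic factors, assembly

`minHyp`       the dichotomy (H12/TG/PartI) and Lemma F (H84/PG/LemF)
`main_asec`    locally graded groups
`main_vind`    virtually indicable groups
-/

set_option autoImplicit false

universe u

namespace H36.PD

open Subgroup H36.PP H84.PG H12.TG

theorem minHyp : MinHyp.{u} := fun _ _ _ _ h N _ => ⟨dichD h N, lem_f h N⟩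

theorem main_asec {G : Type u} [Group G] (hLG : LG G) (A B : Subgroup G)
    (hA : AP A) (hB : AP B) (hdc : DC ⊤ A B) (n : ℕ) (hS : H12.TF.ASec n G) : AP G :=
  red_main minHyp hLG A B hA hB hdc n hS

theorem main_vind {G : Type u} [Group G] (hv : VInd G) (A B : Subgroup G)
    (hA : AP A) (hB : AP B) (hdc : DC ⊤ A B) : AP G :=
  vind_main minHyp hv A B hA hB hdc

end H36.PD
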