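import Pool.Agent.H36.PP.APB
import Pool.Agent.H36.PP.DerivV

/-!
# MP_e8b852_al: affine actions with finitely many orbits (Part II.0, first half)

`Aff act δ M`: `act` is an action of `H` on `V` by additive maps, `δ : H → V` a derivation, `M` an
invariant subgroup of `V` containing all values of `δ`, and the affine action
`h * m = δ h + act h m` has finitely many orbits on `M`.

* `Aff.sub`, `Aff.map`: an invariant subgroup, and an equivariant map
* `Aff.torsion`: if `M` is a torsion group of finite rank and `H` is finitely generated, then `M`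
  is finite
* `Aff_arith`: a finitely generated group of rationals has only finitely many primes
-/

set_option autoImplicit false

namespace H36.PD

open H36.PP

/-- an affine action with finitely many orbits on the subgroup `M` -/
structure Aff {H V : Type*} [Group H] [AddCommGroup V] (act : H → (V →+ V)) (δ : H → V)
    (M : AddSubgroup V) : Prop where
  one : ∀ v, act 1 v = v
  mul : ∀ g h v, act (g * h) v = act g (act h v)
  der : ∀ g h, δ (g * h) = δ g + act g (δ h)
  val : ∀ h, δ h ∈ M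
  inv : ∀ h, ∀ m ∈ M, act h m ∈ M
  cov : ∃ W : Finset V, ∀ m ∈ M, ∃ h, ∃ w ∈ W, m = δ h + act h w

variable {H V : Type*} [Group H] [AddCommGroup V] {act : H → (V →+ V)} {δ : H → V}
  {M : AddSubgroup V}

theorem Aff.one' (a : Aff act δ M) : δ 1 = 0 := by
  have h := a.der 1 1
  rw [mul_one, a.one] at h
  exact left_eq_add.mp h

theorem Aff.inv_act (a : Aff act δ M) (h : H) (v : V) : act h⁻¹ (act h v) = v := by
  rw [← a.mul, inv_mul_cancel, a.one]

theorem Aff.act_inv (a : Aff act δ M) (h : H) (v : V) : act h (act h⁻¹ v) = v := by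
  rw [← a.mul, mul_inv_cancel, a.one]

theorem Aff.der_inv (a : Aff act δ M) (g : H) : δ g⁻¹ = - act g⁻¹ (δ g) := by
  have h := a.der g⁻¹ g
  rw [inv_mul_cancel, a.one'] at h
  exact eq_neg_of_add_eq_zero_left h.symm

/-- only elements of `M` are needed as representatives -/
theorem Aff.cov' (a : Aff act δ M) :
    ∃ W : Finset V, (∀ w ∈ W, w ∈ M) ∧ ∀ m ∈ M, ∃ h, ∃ w ∈ W, m = δ h + act h w := by
  classical
  obtain ⟨W, hW⟩ := a.cov
  refine ⟨W.filter (· ∈ M), fun w hw => (Finset.mem_filter.mp hw).2, fun m hm => ?_⟩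
  obtain ⟨h, w, hw, e⟩ := hW m hm
  refine ⟨h, w, Finset.mem_filter.mpr ⟨hw, ?_⟩, e⟩
  have h1 : w = act h⁻¹ (m - δ h) := by
    rw [e, add_sub_cancel_left, a.inv_act]
  rw [h1]
  exact a.inv _ _ (M.sub_mem hm (a.val h))

/-- the subgroup of all elements with value in the invariant subgroup `T` -/
def Aff.stab (a : Aff act δ M) (T : AddSubgroup V) (hT : ∀ h, ∀ v ∈ T, act h v ∈ T) :
    Subgroup H where
  carrier := {h | δ h ∈ T}
  mul_mem' := by
    intro x y hx hy
    simp only [Set.mem_ofPred_eq] at *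
    rw [a.der]
    exact T.add_mem hx (hT _ _ hy)
  one_mem' := by
    simp only [Set.mem_ofPred_eq]
    rw [a.one']
    exact T.zero_mem
  inv_mem' := by
    intro x hx
    simp only [Set.mem_ofPred_eq] at *
    rw [a.der_inv]
    exact T.neg_mem (hT _ _ hx)

theorem Aff.mem_stab (a : Aff act δ M) (T : AddSubgroup V) (hT : ∀ h, ∀ v ∈ T, act h v ∈ T)
    (h : H) : h ∈ a.stab T hT ↔ δ h ∈ T := Iff.rfl

/-- the subgroup `M ⊓ T` -/
theorem Aff.sub (a : Aff act δ M) (T : AddSubgroup V) (hT : ∀ h, ∀ v ∈ T, act h v ∈ T) :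
    Aff (fun k : a.stab T hT => act (k : H)) (fun k : a.stab T hT => δ (k : H)) (M ⊓ T) := by
  classical
  refine ⟨a.one, fun g h v => a.mul g h v, fun g h => a.der g h, fun h => ⟨a.val h, h.2⟩,
    fun h m hm => ⟨a.inv _ _ hm.1, hT _ _ hm.2⟩, ?_⟩
  obtain ⟨W, hW⟩ := a.cov
  have hch : ∀ w : V, ∃ h0 : H, (∃ h, δ h + act h w ∈ T) → δ h0 + act h0 w ∈ T := by
    intro w
    by_cases h : ∃ h, δ h + act h w ∈ T
    · obtain ⟨h0, h0'⟩ := h
      exact ⟨h0, fun _ => h0'⟩
    · exact ⟨1, fun h' => absurd h' h⟩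
  choose h0 hh0 using hch
  refine ⟨W.image (fun w => δ (h0 w) + act (h0 w) w), fun m hm => ?_⟩
  obtain ⟨h, w, hw, e⟩ := hW m hm.1
  have hw' : δ (h0 w) + act (h0 w) w ∈ T := hh0 w ⟨h, by rw [← e]; exact hm.2⟩
  have e2 : m = δ (h * (h0 w)⁻¹) + act (h * (h0 w)⁻¹) (δ (h0 w) + act (h0 w) w) := by
    rw [map_add, ← add_assoc, ← a.der, ← a.mul]
    simpa using e
  refine ⟨⟨h * (h0 w)⁻¹, ?_⟩, _, Finset.mem_image_of_mem _ hw, e2⟩
  rw [a.mem_stab]
  have e3 : δ (h * (h0 w)⁻¹) = m - act (h * (h0 w)⁻¹) (δ (h0 w) + act (h0 w) w) :=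
    eq_sub_of_add_eq e2.symm
  rw [e3]
  exact T.sub_mem hm.2 (hT _ _ hw')

/-- image under an equivariant map -/
theorem Aff.map (a : Aff act δ M) {V' : Type*} [AddCommGroup V'] (f : V →+ V')
    (act' : H → (V' →+ V')) (one' : ∀ v, act' 1 v = v)
    (mul' : ∀ g h v, act' (g * h) v = act' g (act' h v))
    (hf : ∀ h v, f (act h v) = act' h (f v)) : Aff act' (fun h => f (δ h)) (M.map f) := by
  classical
  refine ⟨one', mul', fun g h => ?_, fun h => ⟨δ h, a.val h, rfl⟩, ?_, ?_⟩
  · rw [a.der, map_add, hf]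
  · rintro h _ ⟨m, hm, rfl⟩
    exact ⟨act h m, a.inv h m hm, hf h m⟩
  · obtain ⟨W, hW⟩ := a.cov
    refine ⟨W.image f, ?_⟩
    rintro _ ⟨m, hm, rfl⟩
    obtain ⟨h, w, hw, e⟩ := hW m hm
    exact ⟨h, f w, Finset.mem_image_of_mem f hw, by rw [e, map_add, hf]⟩

/-- preimage under an injective equivariant map whose image contains `M` -/
theorem Aff.comap (a : Aff act δ M) {V' : Type*} [AddCommGroup V'] (f : V' →+ V)
    (hinj : Function.Injective f) (hr : ∀ m ∈ M, m ∈ f.range)
    (act' : H → (V' →+ V')) (δ' : H → V')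
    (hf : ∀ h v, f (act' h v) = act h (f v)) (hδ : ∀ h, f (δ' h) = δ h) :
    Aff act' δ' (M.comap f) := by
  classical
  refine ⟨fun v => hinj (by rw [hf, a.one]), fun g h v => hinj (by rw [hf, hf, hf, a.mul]),
    fun g h => hinj ?_, fun h => ?_, fun h m hm => ?_, ?_⟩
  · rw [map_add, hf, hδ, hδ, hδ, a.der]
  · rw [AddSubgroup.mem_comap, hδ]
    exact a.val h
  · rw [AddSubgroup.mem_comap, hf]
    exact a.inv h _ hm
  · obtain ⟨W, hWM, hW⟩ := a.cov'
    refine ⟨W.preimage f hinj.injOn, fun m hm => ?_⟩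
    obtain ⟨h, w, hw, e⟩ := hW (f m) hm
    obtain ⟨w', rfl⟩ := hr w (hWM w hw)
    refine ⟨h, w', Finset.mem_preimage.mpr hw, hinj ?_⟩
    rw [map_add, hδ, hf, e]

/-- the torsion case -/
theorem Aff.torsion (a : Aff act δ M) (hH : Group.FG H) (r : ℕ) (hr : ARk M r)
    (ht : ∀ m ∈ M, ∃ n : ℕ, 0 < n ∧ n • m = 0) : Finite M := by
  classical
  obtain ⟨T, hT⟩ := hH.out
  obtain ⟨W, hWM, hW⟩ := a.cov'
  choose! n hn hn' using ht
  let e1 : ℕ := ∏ t ∈ T, n (δ t)
  let e2 : ℕ := ∏ w ∈ W, n w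
  have he1 : 0 < e1 := Finset.prod_pos (fun t _ => hn _ (a.val t))
  have he2 : 0 < e2 := Finset.prod_pos (fun w hw => hn _ (hWM w hw))
  let e : ℕ := e1 * e2
  have he : 0 < e := Nat.mul_pos he1 he2
  have hgen : ∀ t ∈ T, e • δ t = 0 := by
    intro t ht
    obtain ⟨k, hk⟩ : n (δ t) ∣ e1 := Finset.dvd_prod_of_mem (fun t => n (δ t)) ht
    have h1 : e = (k * e2) * n (δ t) := by
      change e1 * e2 = _
      rw [hk]
      ring
    rw [h1, mul_smul, hn' _ (a.val t), smul_zero]
  have hWe : ∀ w ∈ W, e • w = 0 := by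
    intro w hw
    obtain ⟨k, hk⟩ : n w ∣ e2 := Finset.dvd_prod_of_mem n hw
    have h1 : e = (e1 * k) * n w := by
      change e1 * e2 = _
      rw [hk]
      ring
    rw [h1, mul_smul, hn' _ (hWM w hw), smul_zero]
  have hall : ∀ g : H, e • δ g = 0 := by
    intro g
    have hg : g ∈ Subgroup.closure (T : Set H) := by
      rw [hT]; trivial
    induction hg using Subgroup.closure_induction with
    | mem x hx => exact hgen x hx
    | one => rw [a.one', smul_zero]
    | mul x y _ _ hx hy => rw [a.der, smul_add, hx, ← map_nsmul, hy, map_zero, add_zero]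
    | inv x _ hx => rw [a.der_inv, smul_neg, ← map_nsmul, hx, map_zero, neg_zero]
  have hexp : ∀ m : M, e • m = 0 := by
    intro m
    obtain ⟨h, w, hw, em⟩ := hW m m.2
    apply Subtype.ext
    change e • (m : V) = 0
    rw [em, smul_add, hall, ← map_nsmul, hWe w hw, map_zero, add_zero]
  by_contra hfin
  rw [not_finite_iff_infinite] at hfin
  obtain ⟨U, hU⟩ := Infinite.exists_subset_card_eq M (e ^ r + 1)
  obtain ⟨S, hS, hS'⟩ := hr (AddSubgroup.closure (U : Set M)) ⟨U, rfl⟩
  obtain ⟨h2, h3⟩ := DerivT_card_closure_le e he hexp S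
  rw [hS'] at h2 h3
  have h4 : (U : Set M) ⊆ (AddSubgroup.closure (U : Set M) : Set M) := AddSubgroup.subset_closure
  have h5 := Set.ncard_le_ncard h4 h2
  rw [Set.ncard_coe_finset, hU] at h5
  have h6 : e ^ S.card ≤ e ^ r := Nat.pow_le_pow_right he hS
  omega

/-- the eigenvalues of a finitely generated group on a common eigenvector involve only finitely
many primes -/
theorem Aff_arith {H V : Type*} [Group H] [AddCommGroup V] [Module ℚ V]
    (hH : PP.Max H) (act : H → (V →+ V)) (one : ∀ v, act 1 v = v)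
    (mul : ∀ g h v, act (g * h) v = act g (act h v)) (v : V) (hv : v ≠ 0) (N : ℕ) (hN : 0 < N)
    (B : Finset ℕ) (hB : ∀ b ∈ B, 0 < b)
    (h : ∀ k : ℕ, ∃ g : H, ∃ b ∈ B,
      act g (((b : ℕ) : ℚ) • v) = ((1 + N * k : ℕ) : ℚ) • v) : False := by
  classical
  have hsm : ∀ (g : H) (q : ℚ) (x : V), act g (q • x) = q • act g x := fun g q x =>
    map_rat_smul (act g) q x
  let S : Subgroup H :=
    { carrier := {g | ∃ q : ℚ, q ≠ 0 ∧ act g v = q • v}
      mul_mem' := by
        rintro a b ⟨q, hq, ha⟩ ⟨q', hq', hb⟩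
        refine ⟨q' * q, mul_ne_zero hq' hq, ?_⟩
        rw [mul, hb, hsm, ha, smul_smul]
      one_mem' := ⟨1, one_ne_zero, by rw [one, one_smul]⟩
      inv_mem' := by
        rintro a ⟨q, hq, ha⟩
        refine ⟨q⁻¹, inv_ne_zero hq, ?_⟩
        have h1 : act a⁻¹ (act a v) = v := by
          rw [← mul, inv_mul_cancel, one]
        rw [ha, hsm] at h1
        rw [← h1, smul_smul, inv_mul_cancel₀ hq, one_smul, h1] }
  obtain ⟨T, hT⟩ := hH S
  have hTS : ∀ t : H, t ∈ T → ∃ q : ℚ, q ≠ 0 ∧ act t v = q • v := by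
    intro t ht
    have : t ∈ S := by
      rw [← hT]
      exact Subgroup.subset_closure ht
    exact this
  choose! q hq0 hq using hTS
  obtain ⟨p, hp, hpp⟩ := Nat.exists_infinite_primes
    (N + ∑ t ∈ T, ((q t).num.natAbs + (q t).den) + ∑ b ∈ B, b + 1)
  have : _root_.Fact p.Prime := ⟨hpp⟩
  have hval : ∀ t ∈ T, padicValRat p (q t) = 0 := by
    intro t ht
    have h1 : (q t).num.natAbs + (q t).den ≤ ∑ t ∈ T, ((q t).num.natAbs + (q t).den) :=
      Finset.single_le_sum (f := fun t => (q t).num.natAbs + (q t).den)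
        (fun _ _ => Nat.zero_le _) ht
    have h2 : (q t).num.natAbs ≠ 0 := by
      rw [Int.natAbs_ne_zero]
      exact Rat.num_ne_zero.mpr (hq0 t ht)
    have h3 : (q t).den ≠ 0 := (q t).den_ne_zero
    have h4 : padicValInt p (q t).num = 0 := by
      unfold padicValInt
      exact padicValNat.eq_zero_of_not_dvd (fun hd => by
        have := Nat.le_of_dvd (Nat.pos_of_ne_zero h2) hd
        omega)
    have h5 : padicValNat p (q t).den = 0 :=
      padicValNat.eq_zero_of_not_dvd (fun hd => by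
        have := Nat.le_of_dvd (Nat.pos_of_ne_zero h3) hd
        omega)
    unfold padicValRat
    rw [h4, h5]
    simp
  have hall : ∀ g ∈ S, ∃ x : ℚ, x ≠ 0 ∧ act g v = x • v ∧ padicValRat p x = 0 := by
    intro g hg
    rw [← hT] at hg
    induction hg using Subgroup.closure_induction with
    | mem x hx => exact ⟨q x, hq0 x hx, hq x hx, hval x hx⟩
    | one => exact ⟨1, one_ne_zero, by rw [one, one_smul], by simp⟩
    | mul a b _ _ ha hb =>
      obtain ⟨x, hx, ha, hx'⟩ := ha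
      obtain ⟨y, hy, hb, hy'⟩ := hb
      refine ⟨y * x, mul_ne_zero hy hx, ?_, ?_⟩
      · rw [mul, hb, hsm, ha, smul_smul]
      · rw [padicValRat.mul hy hx, hx', hy', add_zero]
    | inv a _ ha =>
      obtain ⟨x, hx, ha, hx'⟩ := ha
      refine ⟨x⁻¹, inv_ne_zero hx, ?_, ?_⟩
      · have h1 : act a⁻¹ (act a v) = v := by
          rw [← mul, inv_mul_cancel, one]
        rw [ha, hsm] at h1
        rw [← h1, smul_smul, inv_mul_cancel₀ hx, one_smul, h1]
      · rw [padicValRat.inv, hx', neg_zero]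
  have hco : Nat.Coprime N p := by
    rw [Nat.coprime_comm, Nat.Prime.coprime_iff_not_dvd hpp]
    intro hd
    have := Nat.le_of_dvd hN hd
    omega
  obtain ⟨m, hm1, hm2⟩ := Nat.chineseRemainder hco 1 0
  have hm1' : m + N * p ≡ 1 [MOD N] := by
    have : m + N * p ≡ m [MOD N] := by
      simp [Nat.ModEq]
    exact this.trans hm1
  have hNp : 0 < N * p := Nat.mul_pos hN hpp.pos
  have h1 : 1 ≤ m + N * p := by omega
  have h2 : N ∣ (m + N * p) - 1 := (Nat.modEq_iff_dvd' h1).mp hm1'.symm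
  obtain ⟨k, hk⟩ := h2
  have hk' : 1 + N * k = m + N * p := by omega
  have hpd : p ∣ m + N * p := by
    have h3 : p ∣ m := (Nat.modEq_zero_iff_dvd).mp hm2
    exact dvd_add h3 (Dvd.intro_left N rfl)
  obtain ⟨g, b, hb, hg⟩ := h k
  rw [hk'] at hg
  have hne : ((m + N * p : ℕ) : ℚ) ≠ 0 := by
    have : m + N * p ≠ 0 := by omega
    exact_mod_cast this
  have hb0 : (b : ℚ) ≠ 0 := by
    have := hB b hb
    exact_mod_cast this.ne'
  have hg' : act g v = (((m + N * p : ℕ) : ℚ) / b) • v := by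
    rw [hsm] at hg
    have h9 : act g v = (b : ℚ)⁻¹ • ((b : ℚ) • act g v) := by
      rw [smul_smul, inv_mul_cancel₀ hb0, one_smul]
    rw [h9, hg, smul_smul]
    congr 1
    field_simp
  obtain ⟨x, hx, hx1, hx2⟩ := hall g ⟨_, div_ne_zero hne hb0, hg'⟩
  have h5 : x = ((m + N * p : ℕ) : ℚ) / b := smul_left_injective ℚ hv (by
    change x • v = (((m + N * p : ℕ) : ℚ) / b) • v
    rw [← hx1, hg'])
  rw [h5, padicValRat.div hne hb0] at hx2
  have h6 : padicValRat p (b : ℚ) = 0 := by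
    have h8 : padicValRat p (b : ℚ) = ((padicValNat p b : ℕ) : ℤ) := padicValRat.of_nat
    rw [h8, padicValNat.eq_zero_of_not_dvd, Nat.cast_zero]
    intro hd
    have h9 := Nat.le_of_dvd (hB b hb) hd
    have h10 : b ≤ ∑ b ∈ B, b := Finset.single_le_sum (f := fun b => b)
      (fun _ _ => Nat.zero_le _) hb
    omega
  rw [h6, sub_zero] at hx2
  have h6 : padicValNat p (m + N * p) = 0 := by
    have : padicValRat p ((m + N * p : ℕ) : ℚ) = ((padicValNat p (m + N * p) : ℕ) : ℤ) :=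
      padicValRat.of_nat
    rw [this] at hx2
    exact_mod_cast hx2
  have h7 : 1 ≤ padicValNat p (m + N * p) :=
    one_le_padicValNat_of_dvd (by omega) hpd
  omega

end H36.PD
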