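import Pool.Agent.H36.PP.RFin
import Pool.Agent.H36.PD.AffA

/-!
# MP_e8b852_al: derivations into irreducible modules (Part II.0 (e))

`inner_faithful`: `Q` almost polycyclic, `V` a faithful irreducible module of finite dimension over
the rationals.  Every derivation `Q → V` is inner.

* `Q` finite: average.
* `Q` infinite: let `A` be an infinite abelian normal subgroup.  `V^A = 0`, and the span of all
  `(a - 1) v` is `V`.  Nakayama's lemma for the group algebra of `A` gives an element `j` of the
  augmentation ideal acting as the identity; as `(b - 1) δ a = (a - 1) δ b`, there is `v` with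
  `(b - 1) v = j δ b = δ b` for all `b ∈ A`.  Subtract the inner derivation of `v`; the
  new derivation vanishes on `A`, so its values are fixed by `A`.
-/

set_option autoImplicit false

namespace H36.PD

open H36.PP

/-- the finite case -/
theorem AffB_finite {Q V : Type*} [Group Q] [AddCommGroup V] [Module ℚ V] [Finite Q]
    (ρ : Q →* Module.End ℚ V) (δ : Q → V) (hδ : ∀ g h, δ (g * h) = δ g + ρ g (δ h)) :
    ∃ v, ∀ q, δ q = ρ q v - v := by
  classical
  have := Fintype.ofFinite Q
  have hc : (Fintype.card Q : ℚ) ≠ 0 := by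
    exact_mod_cast Fintype.card_ne_zero
  refine ⟨-((Fintype.card Q : ℚ)⁻¹ • ∑ q, δ q), fun q => ?_⟩
  have h1 : ρ q (∑ x, δ x) = ∑ x, δ x - (Fintype.card Q : ℚ) • δ q := by
    rw [map_sum]
    have h2 : ∀ x, ρ q (δ x) = δ (q * x) - δ q := fun x => by rw [hδ]; abel
    rw [Finset.sum_congr rfl (fun x _ => h2 x), Finset.sum_sub_distrib]
    congr 1
    · exact Fintype.sum_equiv (Equiv.mulLeft q) _ _ (fun x => rfl)
    · rw [Finset.sum_const, Finset.card_univ, Nat.cast_smul_eq_nsmul]
  rw [map_neg, map_smul, h1, smul_sub, smul_smul, inv_mul_cancel₀ hc, one_smul]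
  abel

/-- the module over the group algebra of an abelian group -/
theorem AffB_abelian {P V : Type*} [CommGroup P] [AddCommGroup V] [Module ℚ V]
    [FiniteDimensional ℚ V] (ρ : P →* Module.End ℚ V) (δ : P → V)
    (hδ : ∀ g h, δ (g * h) = δ g + ρ g (δ h))
    (hspan : Submodule.span ℚ {x : V | ∃ (a : P) (v : V), x = ρ a v - v} = ⊤) :
    ∃ v, ∀ q, δ q = ρ q v - v := by
  classical
  let R := MonoidAlgebra ℚ P
  let φ : R →ₐ[ℚ] Module.End ℚ V := MonoidAlgebra.lift ℚ (Module.End ℚ V) P ρ
  letI : Module R V := Module.compHom V φ.toRingHom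
  have hsm : ∀ (r : R) (v : V), r • v = φ r v := fun r v => rfl
  have hof : ∀ (a : P) (v : V), (MonoidAlgebra.of ℚ P a) • v = ρ a v := by
    intro a v
    rw [hsm]
    have : φ (MonoidAlgebra.of ℚ P a) = ρ a := MonoidAlgebra.lift_of _ _
    rw [this]
  have halg : ∀ (q : ℚ) (v : V), (algebraMap ℚ R q) • v = q • v := by
    intro q v
    rw [hsm, AlgHom.commutes]
    rfl
  let I : Ideal R := Ideal.span {x : R | ∃ a : P, x = MonoidAlgebra.of ℚ P a - 1}
  have htop : (⊤ : Submodule R V).FG := by
    obtain ⟨S, hS⟩ := (inferInstance : Module.Finite ℚ V).fg_top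
    refine ⟨S, ?_⟩
    rw [eq_top_iff]
    intro x _
    have hx : x ∈ Submodule.span ℚ (S : Set V) := by rw [hS]; trivial
    induction hx using Submodule.span_induction with
    | mem x hx => exact Submodule.subset_span hx
    | zero => exact Submodule.zero_mem _
    | add x y _ _ hx hy => exact Submodule.add_mem _ (hx trivial) (hy trivial)
    | smul q x _ hx =>
      rw [← halg]
      exact Submodule.smul_mem _ _ (hx trivial)
  have hle : (⊤ : Submodule R V) ≤ I • (⊤ : Submodule R V) := by
    intro x _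
    have hx : x ∈ Submodule.span ℚ {x : V | ∃ (a : P) (v : V), x = ρ a v - v} := by
      rw [hspan]; trivial
    induction hx using Submodule.span_induction with
    | mem x hx =>
      obtain ⟨a, v, rfl⟩ := hx
      have h1 : ρ a v - v = (MonoidAlgebra.of ℚ P a - 1) • v := by
        rw [sub_smul, one_smul, hof]
      rw [h1]
      exact Submodule.smul_mem_smul (Ideal.subset_span ⟨a, rfl⟩) trivial
    | zero => exact Submodule.zero_mem _
    | add x y _ _ hx hy => exact Submodule.add_mem _ (hx trivial) (hy trivial)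
    | smul q x _ hx =>
      rw [← halg]
      exact Submodule.smul_mem _ _ (hx trivial)
  obtain ⟨r, hr, hr0⟩ :=
    Submodule.exists_sub_one_mem_and_smul_eq_zero_of_fg_of_le_smul I ⊤ htop hle
  have key : ∀ j ∈ I, ∃ v0 : V, ∀ b : P, ρ b v0 - v0 = j • δ b := by
    intro j hj
    induction hj using Submodule.span_induction with
    | mem j hj =>
      obtain ⟨a, rfl⟩ := hj
      refine ⟨δ a, fun b => ?_⟩
      rw [sub_smul, one_smul, hof]
      have h1 := hδ a b
      have h2 := hδ b a
      rw [mul_comm b a, h1] at h2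
      have h3 : ρ b (δ a) = δ a + ρ a (δ b) - δ b := by rw [h2]; abel
      rw [h3]
      abel
    | zero => exact ⟨0, fun b => by simp⟩
    | add x y _ _ hx hy =>
      obtain ⟨v, hv⟩ := hx
      obtain ⟨w, hw⟩ := hy
      refine ⟨v + w, fun b => ?_⟩
      rw [add_smul, ← hv, ← hw, map_add]
      abel
    | smul c x _ hx =>
      obtain ⟨v, hv⟩ := hx
      refine ⟨c • v, fun b => ?_⟩
      rw [smul_assoc, ← hv, smul_sub, ← hof, ← hof, ← mul_smul, ← mul_smul, mul_comm]
  obtain ⟨v0, hv0⟩ := key (1 - r) (by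
    have : 1 - r = -(r - 1) := by ring
    rw [this]
    exact I.neg_mem hr)
  refine ⟨v0, fun q => ?_⟩
  rw [hv0, sub_smul, one_smul, hr0 _ trivial, sub_zero]

/-- derivations into faithful irreducible modules are inner -/
theorem inner_faithful {Q V : Type*} [Group Q] [AddCommGroup V] [Module ℚ V]
    [FiniteDimensional ℚ V] (hQ : AP Q) (ρ : Q →* Module.End ℚ V)
    (hirr : ∀ W : Submodule ℚ V, (∀ h, ∀ w ∈ W, ρ h w ∈ W) → W = ⊥ ∨ W = ⊤)
    (hfaith : ∀ q, (∀ v, ρ q v = v) → q = 1)
    (δ : Q → V) (hδ : ∀ g h, δ (g * h) = δ g + ρ g (δ h)) :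
    ∃ v, ∀ q, δ q = ρ q v - v := by
  classical
  rcases finite_or_infinite Q with hfin | hinf
  · exact AffB_finite ρ δ hδ
  obtain ⟨A, hAc, hcomm, -, hAi⟩ := exists_char_free_abelian hQ hinf
  have hAn : A.Normal := inferInstance
  have hmul : ∀ g h x, ρ (g * h) x = ρ g (ρ h x) := by
    intro g h x
    rw [map_mul]
    rfl
  obtain ⟨a0, ha0, ha01⟩ : ∃ a ∈ A, a ≠ 1 := by
    by_contra hc
    push Not at hc
    have : Subsingleton A := ⟨fun x y => Subtype.ext (by rw [hc x x.2, hc y y.2])⟩
    exact not_finite A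
  letI : CommGroup A := { (inferInstance : Group A) with
    mul_comm := fun x y => Subtype.ext (hcomm x x.2 y y.2) }
  -- the span of all `(a - 1) v`
  have hspan : Submodule.span ℚ {x : V | ∃ (a : A) (v : V), x = (ρ.comp A.subtype) a v - v} = ⊤ := by
    rcases hirr (Submodule.span ℚ {x : V | ∃ (a : A) (v : V), x = (ρ.comp A.subtype) a v - v})
      (by
        intro h w hw
        have h1 : Submodule.span ℚ {x : V | ∃ (a : A) (v : V), x = (ρ.comp A.subtype) a v - v} ≤
            (Submodule.span ℚ {x : V | ∃ (a : A) (v : V),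
              x = (ρ.comp A.subtype) a v - v}).comap (ρ h) := by
          rw [Submodule.span_le]
          rintro _ ⟨a, v, rfl⟩
          refine Submodule.subset_span ⟨⟨h * a * h⁻¹, hAn.conj_mem a a.2 h⟩, ρ h v, ?_⟩
          simp only [MonoidHom.comp_apply, Subgroup.subtype_apply, map_sub]
          rw [← hmul, ← hmul]
          simp
        exact h1 hw) with h1 | h1
    · exfalso
      apply ha01
      apply hfaith
      intro v
      have h2 : ρ a0 v - v ∈ Submodule.span ℚ
          {x : V | ∃ (a : A) (v : V), x = (ρ.comp A.subtype) a v - v} :=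
        Submodule.subset_span ⟨⟨a0, ha0⟩, v, rfl⟩
      rw [h1, Submodule.mem_bot, sub_eq_zero] at h2
      exact h2
    · exact h1
  obtain ⟨v, hv⟩ := AffB_abelian (ρ.comp A.subtype) (fun a : A => δ a)
    (fun g h => hδ g h) hspan
  -- the fixed space
  let W : Submodule ℚ V :=
    { carrier := {w | ∀ a ∈ A, ρ a w = w}
      zero_mem' := fun a _ => map_zero _
      add_mem' := fun hx hy a ha => by rw [map_add, hx a ha, hy a ha]
      smul_mem' := fun c x hx a ha => by rw [map_smul, hx a ha] }
  have hW : W = ⊥ := by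
    rcases hirr W (by
      intro h w hw a ha
      have h1 := hw _ (hAn.conj_mem a ha h⁻¹)
      have h2 : ρ a (ρ h w) = ρ h (ρ (h⁻¹ * a * h⁻¹⁻¹) w) := by
        rw [← hmul, ← hmul]
        congr 2
        group
      rw [h2, h1]) with h1 | h1
    · exact h1
    · exfalso
      apply ha01
      apply hfaith
      intro v
      have h2 : v ∈ W := by rw [h1]; trivial
      exact h2 a0 ha0
  refine ⟨v, fun q => ?_⟩
  have hq : δ q - (ρ q v - v) ∈ W := by
    intro a ha
    have ha' : q⁻¹ * a * q ∈ A := by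
      have := hAn.conj_mem a ha q⁻¹
      simpa using this
    have e0 : q * (q⁻¹ * a * q) = a * q := by group
    have e1 := hδ q (q⁻¹ * a * q)
    have e2 := hδ a q
    rw [e0] at e1
    have e3 : δ (q⁻¹ * a * q) = ρ (q⁻¹ * a * q) v - v := hv ⟨_, ha'⟩
    have e4 : δ a = ρ a v - v := hv ⟨a, ha⟩
    rw [e3, map_sub, ← hmul, e0, hmul] at e1
    rw [e4] at e2
    have e5 : ρ a (δ q) = δ q + (ρ a (ρ q v) - ρ q v) - (ρ a v - v) := by
      rw [← e1, e2]
      abel
    rw [map_sub, map_sub, e5]
    abel
  rw [hW, Submodule.mem_bot, sub_eq_zero] at hq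
  exact hq

end H36.PD
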