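import Pool.Agent.H36.PD.AffB

/-!
# MP_e8b852_al: affine actions with finitely many orbits (Part II.0, second half)

`Aff.irred`   the module spans an irreducible rational representation
`Aff.vec`     the module lies in a rational representation of finite dimension
`Aff.fg`      `H` almost polycyclic, `M` of finite rank, finitely many orbits of an affine action
              of `H` on `M`: then `M` is finitely generated
-/

set_option autoImplicit false

universe u v

namespace H36.PD

open H36.PP

theorem Aff.irred {H V : Type*} [Group H] [AddCommGroup V] [Module ℚ V]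
    [FiniteDimensional ℚ V] (hH : AP H) {act : H → (V →+ V)} {δ : H → V} {M : AddSubgroup V}
    (a : Aff act δ M)
    (hirr : ∀ W : Submodule ℚ V, (∀ h, ∀ w ∈ W, act h w ∈ W) → W = ⊥ ∨ W = ⊤) : M.FG := by
  classical
  have hsm : ∀ (g : H) (q : ℚ) (x : V), act g (q • x) = q • act g x := fun g q x =>
    map_rat_smul (act g) q x
  have hspan : ∀ L : AddSubgroup V, (∀ g, ∀ x ∈ L, act g x ∈ L) → L ≠ ⊥ →
      Submodule.span ℚ (L : Set V) = ⊤ := by
    intro L hL hne
    rcases hirr (Submodule.span ℚ (L : Set V)) (by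
      intro h w hw
      have h1 : Submodule.span ℚ (L : Set V) ≤
          (Submodule.span ℚ (L : Set V)).comap (act h).toRatLinearMap := by
        rw [Submodule.span_le]
        intro x hx
        exact Submodule.subset_span (hL h x hx)
      exact h1 hw) with h1 | h1
    · exfalso
      apply hne
      rw [eq_bot_iff]
      intro x hx
      have h2 : x ∈ Submodule.span ℚ (L : Set V) := Submodule.subset_span hx
      rw [h1] at h2
      exact h2
    · exact h1
  by_cases hM0 : M = ⊥
  · rw [hM0]
    exact DerivV_fg_finite _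
  have hMspan := hspan M a.inv hM0
  -- the kernel of the action
  let C : Subgroup H :=
    { carrier := {h | ∀ v, act h v = v}
      mul_mem' := fun {x y} hx hy v => by rw [a.mul, hy, hx]
      one_mem' := a.one
      inv_mem' := fun {x} hx v => by
        have h1 := a.inv_act x v
        rwa [hx v] at h1 }
  have hCn : C.Normal := ⟨fun c hc g v => by
    rw [a.mul, a.mul, hc, a.act_inv]⟩
  have haddC : ∀ g ∈ C, ∀ h ∈ C, δ (g * h) = δ g + δ h := by
    intro g hg h _
    rw [a.der, hg]
  let L : AddSubgroup V :=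
    { carrier := {v | ∃ k ∈ C, δ k = v}
      zero_mem' := ⟨1, C.one_mem, a.one'⟩
      add_mem' := by
        rintro x y ⟨k, hk, rfl⟩ ⟨l, hl, rfl⟩
        exact ⟨k * l, C.mul_mem hk hl, haddC k hk l hl⟩
      neg_mem' := by
        rintro x ⟨k, hk, rfl⟩
        refine ⟨k⁻¹, C.inv_mem hk, ?_⟩
        have h2 := haddC k⁻¹ (C.inv_mem hk) k hk
        rw [inv_mul_cancel, a.one'] at h2
        exact eq_neg_of_add_eq_zero_left h2.symm }
  have hLmem : ∀ v, v ∈ L ↔ ∃ k ∈ C, δ k = v := fun v => Iff.rfl
  have hLfg : L.FG := DerivV_hom δ C (hH.1 _) haddC L hLmem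
  have hLM : L ≤ M := by
    rintro v ⟨k, _, rfl⟩
    exact a.val k
  have hLinv : ∀ g, ∀ x ∈ L, act g x ∈ L := by
    rintro h x ⟨c, hc, rfl⟩
    refine ⟨h * c * h⁻¹, hCn.conj_mem c hc h, ?_⟩
    have h1 : δ (h * c * h⁻¹) = δ h + act h (δ c) + act h (δ h⁻¹) := by
      rw [a.der, a.der, a.mul, hc]
    have h2 : δ h + act h (δ h⁻¹) = 0 := by
      rw [← a.der, mul_inv_cancel, a.one']
    rw [h1, add_right_comm, h2, zero_add]
  by_cases hL0 : L = ⊥
  · -- the derivation is inner
    exfalso
    have hδC : ∀ c ∈ C, δ c = 0 := by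
      intro c hc
      have : δ c ∈ L := ⟨c, hc, rfl⟩
      rw [hL0] at this
      exact this
    let ρ0 : H →* Module.End ℚ V :=
      { toFun := fun h => (act h).toRatLinearMap
        map_one' := by
          ext v
          exact a.one v
        map_mul' := by
          intro g h
          ext v
          exact a.mul g h v }
    have hρ0 : ∀ h v, ρ0 h v = act h v := fun h v => rfl
    let ρ : H ⧸ C →* Module.End ℚ V := QuotientGroup.lift C ρ0 (by
      intro c hc
      ext v
      exact hc v)
    have hρ : ∀ (h : H) v, ρ (QuotientGroup.mk h) v = act h v := fun h v => rfl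
    have hwd : ∀ g h : H, (QuotientGroup.mk g : H ⧸ C) = QuotientGroup.mk h → δ g = δ h := by
      intro g h hgh
      rw [QuotientGroup.eq] at hgh
      have : h = g * (g⁻¹ * h) := by group
      rw [this, a.der, hδC _ hgh, map_zero, add_zero]
    let δ' : H ⧸ C → V := fun q => δ q.out
    have hδ' : ∀ h : H, δ' (QuotientGroup.mk h) = δ h := by
      intro h
      apply hwd
      exact Quotient.out_eq' _
    obtain ⟨v, hv⟩ := inner_faithful (hH.quotient C) ρ (by
        intro W hW
        exact hirr W (fun h w hw => hW (QuotientGroup.mk h) w hw)) (by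
        intro q hq
        obtain ⟨h, rfl⟩ := QuotientGroup.mk_surjective q
        rw [QuotientGroup.eq_one_iff]
        exact fun v => hq v) δ' (by
        intro p q
        obtain ⟨g, rfl⟩ := QuotientGroup.mk_surjective p
        obtain ⟨h, rfl⟩ := QuotientGroup.mk_surjective q
        rw [← QuotientGroup.mk_mul, hδ', hδ', hδ', hρ, a.der])
    have hv' : ∀ h, δ h = act h v - v := by
      intro h
      rw [← hδ', hv, hρ]
    -- an arithmetic progression in `v + M`
    obtain ⟨e, N, he, hN, hprog⟩ : ∃ (e : V) (N : ℕ), e ≠ 0 ∧ 0 < N ∧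
        ∀ k : ℕ, ((1 + N * k : ℕ) : ℚ) • e - v ∈ M := by
      by_cases hv0 : v = 0
      · obtain ⟨e, he, he0⟩ := AddSubgroup.ne_bot_iff_exists_ne_zero.mp hM0 |>.imp
          (fun x hx => And.intro x.2 (fun h => hx (Subtype.ext h)))
        refine ⟨e, 1, he0, one_pos, fun k => ?_⟩
        rw [hv0, sub_zero, Nat.cast_smul_eq_nsmul]
        exact M.nsmul_mem he _
      · obtain ⟨N, hN, hNv⟩ := DerivV_span_mul M v (by rw [hMspan]; trivial)
        refine ⟨v, N, hv0, hN, fun k => ?_⟩
        rw [Nat.cast_smul_eq_nsmul, add_smul, one_smul, add_sub_cancel_left, mul_comm, mul_smul]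
        exact M.nsmul_mem hNv k
    obtain ⟨W, hW⟩ := a.cov
    -- every element of the progression is `act h (v + w)`
    have hrep : ∀ k : ℕ, ∃ (h : H) (w : V), w ∈ W ∧
        ((1 + N * k : ℕ) : ℚ) • e = act h (v + w) := by
      intro k
      obtain ⟨h, w, hw, hm⟩ := hW _ (hprog k)
      refine ⟨h, w, hw, ?_⟩
      rw [hv'] at hm
      rw [map_add]
      have h1 := eq_add_of_sub_eq hm
      rw [h1]
      abel
    choose hh ww hwW hrep using hrep
    have hch : ∀ w : V, ∃ k0 : ℕ, (∃ k, ww k = w) → ww k0 = w := by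
      intro w
      by_cases h : ∃ k, ww k = w
      · obtain ⟨k, hk⟩ := h
        exact ⟨k, fun _ => hk⟩
      · exact ⟨0, fun h' => absurd h' h⟩
    choose k0 hk0 using hch
    refine Aff_arith hH.1 act a.one a.mul e he N hN (W.image (fun w => 1 + N * k0 w)) ?_ ?_
    · intro b hb
      obtain ⟨w, _, rfl⟩ := Finset.mem_image.mp hb
      omega
    · intro k
      have h1 : ww (k0 (ww k)) = ww k := hk0 (ww k) ⟨k, rfl⟩
      refine ⟨hh k * (hh (k0 (ww k)))⁻¹, _, Finset.mem_image_of_mem _ (hwW k), ?_⟩
      rw [hrep (k0 (ww k)), hrep k, h1, ← a.mul]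
      congr 2
      group
  · -- the lattice case
    have hLspan := hspan L hLinv hL0
    let f : V →+ V ⧸ L := QuotientAddGroup.mk' L
    have hfin : Finite (M.map f) := by
      refine (a.map f (fun g => QuotientAddGroup.map L L (act g) (fun x hx => hLinv g x hx))
        ?_ ?_ (fun h v => rfl)).torsion (DerivV_groupfg hH.1) (Module.finrank ℚ V) ?_ ?_
      · intro v
        obtain ⟨x, rfl⟩ := QuotientAddGroup.mk_surjective v
        change ((act 1 x : V) : V ⧸ L) = x
        rw [a.one]
      · intro g h v
        obtain ⟨x, rfl⟩ := QuotientAddGroup.mk_surjective v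
        change ((act (g * h) x : V) : V ⧸ L) = ((act g (act h x) : V) : V ⧸ L)
        rw [a.mul]
      · exact ((ARk.of_vec V).of_surjective f (QuotientAddGroup.mk'_surjective L)).of_injective
          (M.map f).subtype (AddSubgroup.subtype_injective _)
      · rintro _ ⟨m, _, rfl⟩
        obtain ⟨n, hn, h⟩ := DerivV_span_mul L m (by rw [hLspan]; trivial)
        refine ⟨n, hn, ?_⟩
        rw [← map_nsmul]
        exact (QuotientAddGroup.eq_zero_iff _).mpr h
    refine DerivV_fg_ext f M (DerivV_fg_finite _) ?_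
    have h1 : f.ker = L := QuotientAddGroup.ker_mk' L
    rw [h1, inf_eq_right.mpr hLM]
    exact hLfg

theorem AffC_vec (n : ℕ) : ∀ (H : Type u) (V : Type v) [Group H] [AddCommGroup V] [Module ℚ V]
    [FiniteDimensional ℚ V] (_ : AP H) (act : H → (V →+ V)) (δ : H → V) (M : AddSubgroup V)
    (_ : Aff act δ M), Module.finrank ℚ V ≤ n → M.FG := by
  induction n with
  | zero =>
    intro H V _ _ _ _ hH act δ M a hd
    have h1 : Module.finrank ℚ V = 0 := Nat.le_zero.mp hd
    have : Subsingleton V := Module.finrank_zero_iff.mp h1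
    exact DerivV_fg_finite _
  | succ n ih =>
    intro H V _ _ _ _ hH act δ M a hd
    by_cases hirr : ∀ W : Submodule ℚ V, (∀ h, ∀ w ∈ W, act h w ∈ W) → W = ⊥ ∨ W = ⊤
    · exact a.irred hH hirr
    push Not at hirr
    obtain ⟨W, hW, hWb, hWt⟩ := hirr
    have hWlt : Module.finrank ℚ W < Module.finrank ℚ V := Submodule.finrank_lt hWt
    have hWpos : 0 < Module.finrank ℚ W := by
      rw [Nat.pos_iff_ne_zero]
      intro h
      exact hWb (Submodule.finrank_eq_zero.mp h)
    have hquot : Module.finrank ℚ (V ⧸ W) + Module.finrank ℚ W = Module.finrank ℚ V :=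
      Submodule.finrank_quotient_add_finrank W
    -- the submodule
    have h1 : ((M ⊓ W.toAddSubgroup).comap W.toAddSubgroup.subtype : AddSubgroup W).FG := by
      have b := a.sub W.toAddSubgroup hW
      refine ih _ W (hH.subgroup _)
        (fun k => ((act (k : H)).comp W.toAddSubgroup.subtype).codRestrict W
          (fun w => hW (k : H) w w.2)) (fun k => ⟨δ (k : H), k.2⟩) _
        (b.comap W.toAddSubgroup.subtype (AddSubgroup.subtype_injective _) ?_ _ _ ?_ ?_) (by omega)
      · intro m hm
        exact ⟨⟨m, hm.2⟩, rfl⟩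
      · intro h v
        rfl
      · intro h
        rfl
    have h2 : (M.map W.mkQ.toAddMonoidHom).FG := by
      refine ih H (V ⧸ W) hH (fun g => W.mapQ W (act g).toRatLinearMap (fun w hw => hW g w hw))
        _ _ (a.map W.mkQ.toAddMonoidHom _ ?_ ?_ ?_) (by omega)
      · intro v
        obtain ⟨x, rfl⟩ := W.mkQ_surjective v
        change W.mkQ (act 1 x) = _
        rw [a.one]
      · intro g h v
        obtain ⟨x, rfl⟩ := W.mkQ_surjective v
        change W.mkQ (act (g * h) x) = W.mkQ (act g (act h x))
        rw [a.mul]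
      · intro h v
        rfl
    refine DerivV_fg_ext W.mkQ.toAddMonoidHom M h2 ?_
    have h3 : M ⊓ (W.mkQ.toAddMonoidHom).ker
        = ((M ⊓ W.toAddSubgroup).comap W.toAddSubgroup.subtype).map
          W.toAddSubgroup.subtype := by
      ext x
      constructor
      · rintro ⟨hx1, hx2⟩
        have hx3 : x ∈ W := by
          have : W.mkQ x = 0 := hx2
          simpa using this
        exact ⟨⟨x, hx3⟩, ⟨hx1, hx3⟩, rfl⟩
      · rintro ⟨y, hy, rfl⟩
        refine ⟨hy.1, ?_⟩
        change W.mkQ (y : V) = 0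
        simp
    rw [h3]
    obtain ⟨T, hT⟩ := h1
    classical
    refine ⟨T.image W.toAddSubgroup.subtype, ?_⟩
    rw [Finset.coe_image]
    rw [← AddMonoidHom.map_closure]
    exact congrArg _ hT

theorem Aff.vec {H V : Type*} [Group H] [AddCommGroup V] [Module ℚ V]
    [FiniteDimensional ℚ V] (hH : AP H) {act : H → (V →+ V)} {δ : H → V} {M : AddSubgroup V}
    (a : Aff act δ M) : M.FG :=
  AffC_vec (Module.finrank ℚ V) H V hH act δ M a le_rfl

/-- an affine action with finitely many orbits of an almost polycyclic group on an abelian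
group of finite rank -/
theorem Aff.fg {H M : Type*} [Group H] [AddCommGroup M] (hH : AP H) {act : H → (M →+ M)}
    {δ : H → M} (a : Aff act δ (⊤ : AddSubgroup M)) (r : ℕ) (hr : ARk M r) : AddGroup.FG M := by
  classical
  let T : AddSubgroup M :=
    { carrier := {m | ∃ n : ℕ, 0 < n ∧ n • m = 0}
      zero_mem' := ⟨1, one_pos, by simp⟩
      add_mem' := by
        rintro a b ⟨n, hn, ha⟩ ⟨m, hm, hb⟩
        refine ⟨n * m, Nat.mul_pos hn hm, ?_⟩
        rw [smul_add, mul_smul n m b, hb, smul_zero, add_zero, mul_comm, mul_smul, ha, smul_zero]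
      neg_mem' := by
        rintro a ⟨n, hn, ha⟩
        exact ⟨n, hn, by rw [smul_neg, ha, neg_zero]⟩ }
  have hTinv : ∀ (g : H), ∀ m ∈ T, act g m ∈ T := by
    rintro g m ⟨n, hn, hm⟩
    exact ⟨n, hn, by rw [← map_nsmul, hm, map_zero]⟩
  have hTfin : Finite T := by
    have h1 : Finite (⊤ ⊓ T : AddSubgroup M) := by
      refine (a.sub T hTinv).torsion (DerivV_groupfg (DerivV_max hH.1 _)) r
        (hr.of_injective (AddSubgroup.subtype _) (AddSubgroup.subtype_injective _)) ?_
      rintro m ⟨-, hm⟩
      exact hm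
    rwa [top_inf_eq] at h1
  let act' : H →* AddMonoid.End (M ⧸ T) :=
    { toFun := fun g => QuotientAddGroup.map T T (act g) (fun m hm => hTinv g m hm)
      map_one' := by
        apply AddMonoidHom.ext
        intro x
        obtain ⟨y, rfl⟩ := QuotientAddGroup.mk_surjective x
        change ((act 1 y : M) : M ⧸ T) = (y : M ⧸ T)
        rw [a.one]
      map_mul' := by
        intro g h
        apply AddMonoidHom.ext
        intro x
        obtain ⟨y, rfl⟩ := QuotientAddGroup.mk_surjective x
        change ((act (g * h) y : M) : M ⧸ T) = ((act g (act h y) : M) : M ⧸ T)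
        rw [a.mul] }
  obtain ⟨d, ρ, i, hi, hiρ⟩ := DerivT_embed_vec act' r
    (hr.of_surjective (QuotientAddGroup.mk' T) (QuotientAddGroup.mk'_surjective T)) (by
      intro x n hn hx
      obtain ⟨y, rfl⟩ := QuotientAddGroup.mk_surjective x
      have h1 : n • y ∈ T := (QuotientAddGroup.eq_zero_iff _).mp hx
      obtain ⟨k, hk, hy⟩ := h1
      apply (QuotientAddGroup.eq_zero_iff _).mpr
      refine ⟨k * n, Nat.mul_pos hk hn, ?_⟩
      rw [mul_smul, hy])
  let f : M →+ (Fin d → ℚ) := i.comp (QuotientAddGroup.mk' T)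
  have hfker : f.ker = T := by
    ext x
    rw [AddMonoidHom.mem_ker]
    constructor
    · intro hx
      have h1 : i (QuotientAddGroup.mk' T x) = i 0 := by
        rw [map_zero]; exact hx
      exact (QuotientAddGroup.eq_zero_iff _).mp (hi h1)
    · intro hx
      have h1 : QuotientAddGroup.mk' T x = 0 := (QuotientAddGroup.eq_zero_iff _).mpr hx
      change i (QuotientAddGroup.mk' T x) = 0
      rw [h1, map_zero]
  have h1 : ((⊤ : AddSubgroup M).map f).FG := by
    refine (a.map f (fun h => (ρ h).toAddMonoidHom) ?_ ?_ ?_).vec hH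
    · intro v
      change ρ 1 v = v
      rw [map_one]
      rfl
    · intro g h v
      change ρ (g * h) v = ρ g (ρ h v)
      rw [map_mul]
      rfl
    · intro h v
      exact hiρ h (QuotientAddGroup.mk' T v)
  have h2 : ((⊤ : AddSubgroup M) ⊓ f.ker).FG := by
    rw [hfker, top_inf_eq]
    exact DerivV_fg_finite _
  exact ⟨DerivV_fg_ext f ⊤ h1 h2⟩

end H36.PD
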