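import Pool.Agent.H36.PD.RedQ
import Pool.Agent.H71.KW.Main

/-!
# MP_e8b852_al: almost nilpotent factors

`VNil X`      some subgroup of finite index is nilpotent
`almnil_main` a locally graded group which is covered by finitely many double cosets `A f B`, where
              `A`, `B` are almost polycyclic and almost nilpotent, is almost polycyclic

In the residually finite just-non-AP counterexample `X` replace `A`, `B` by nilpotent subgroups of
finite index. There are `f` and a normal subgroup `U` of finite index with `U ≤ A B^f J` for all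
normal subgroups `J` of finite index. In `X / J` the group `A U` is the product of `A` and of
a subgroup of `B^f`, so it is soluble by the theorem of Kegel and Wielandt.
-/

set_option autoImplicit false

universe u

namespace H36.PD

open Subgroup H36.PP H36.PQ H84.PG H12.TG

theorem nil_of_inj {X Y : Type u} [Group X] [Group Y] (f : X →* Y) (hf : Function.Injective f)
    (h : Group.IsNilpotent Y) : Group.IsNilpotent X := by
  have h1 : Group.IsNilpotent f.range := inferInstance
  exact Group.nilpotent_of_mulEquiv (MonoidHom.ofInjective hf).symm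

/-- almost nilpotent -/
def VNil (X : Type u) [Group X] : Prop :=
  ∃ N : Subgroup X, N.FiniteIndex ∧ Group.IsNilpotent N

theorem vnil_fq : FQ.{u} VNil := by
  constructor
  · rintro X Y _ _ ⟨f, hf⟩ ⟨N, hN, hn⟩
    refine ⟨N.comap f, APB_finiteIndex_comap f N hN, ?_⟩
    refine nil_of_inj (f.subgroupComap N) ?_ hn
    intro x y hxy
    apply Subtype.ext
    apply hf
    exact congrArg (fun z : N => (z : Y)) hxy
  · rintro X Y _ _ f hf ⟨N, hN, hn⟩
    refine ⟨N.map f, ?_, ?_⟩
    · rw [finiteIndex_iff] at hN ⊢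
      intro h0
      have h1 := index_map_dvd N hf
      rw [h0, zero_dvd_iff] at h1
      exact hN h1
    · have := hn
      exact Group.nilpotent_of_surjective (f.subgroupMap N) (f.subgroupMap_surjective N)

/-- finite groups: a normal subgroup contained in `A B` -/
theorem sol_of_le {Q : Type u} [Group Q] [Finite Q] (A B U : Subgroup Q) [U.Normal]
    (hA : Group.IsNilpotent A) (hB : Group.IsNilpotent B)
    (h : ∀ u ∈ U, ∃ a ∈ A, ∃ b ∈ B, u = a * b) : Group.IsSolvable U := by
  let Y : Subgroup Q := A ⊔ U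
  have hAY : A ≤ Y := le_sup_left
  have hUY : U ≤ Y := le_sup_right
  have h1 : Group.IsNilpotent (A.subgroupOf Y) := by
    have := hA
    exact Group.nilpotent_of_mulEquiv (subgroupOfEquivOfLe hAY).symm
  have h2 : Group.IsNilpotent (B.subgroupOf Y) := by
    obtain ⟨f, hf⟩ := Emb.subgroupOf B Y
    exact nil_of_inj f hf hB
  have hY : Group.IsSolvable Y := by
    refine Pool.Agent.H71.KW.isSolvable_of_mul (A.subgroupOf Y) (B.subgroupOf Y) h1 h2 ?_
    rintro ⟨g, hg⟩
    have hg' := hg
    rw [← SetLike.mem_coe, Subgroup.mul_normal] at hg'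
    obtain ⟨a, ha, u, hu, rfl⟩ := hg'
    obtain ⟨x, hx, y, hy, rfl⟩ := h u hu
    have hax : a * x ∈ A := A.mul_mem ha hx
    have hyY : y ∈ Y := by
      have h3 : y = (a * x)⁻¹ * (a * (x * y)) := by group
      rw [h3]
      exact Y.mul_mem (Y.inv_mem (hAY hax)) hg
    refine ⟨⟨a * x, hAY hax⟩, mem_subgroupOf.2 hax, ⟨y, hyY⟩, mem_subgroupOf.2 hy, ?_⟩
    apply Subtype.ext
    change a * (x * y) = a * x * y
    group
  exact Group.isSolvable_of_isSolvable_injective (f := Subgroup.inclusion hUY)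
    (Subgroup.inclusion_injective hUY)

/-- nilpotent subgroups of finite index and a smaller cover -/
theorem cover_fi {X : Type u} [Group X] {A B A₁ B₁ : Subgroup X} (hd : DC ⊤ A B)
    (hA : A₁.relIndex A ≠ 0) (hB : B₁.relIndex B ≠ 0) :
    ∃ F : Finset X, ∀ g : X, ∃ a ∈ A₁, ∃ f ∈ F, ∃ b ∈ B₁, g = a * f * b := by
  classical
  obtain ⟨-, -, F, hF, -, hcov⟩ := hd
  obtain ⟨S, hS, -, hSc⟩ := exists_trans hA
  obtain ⟨T, hT, -, hTc⟩ := exists_trans hB
  have hfin : ((fun p : X × X × X => p.1 * p.2.1 * p.2.2⁻¹) '' (S ×ˢ F ×ˢ T)).Finite :=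
    (hS.prod (hF.prod hT)).image _
  refine ⟨hfin.toFinset, fun g => ?_⟩
  obtain ⟨a, ha, f, hf, b, hb, rfl⟩ := hcov g (mem_top g)
  obtain ⟨s, hs, hs'⟩ := hSc a ha
  obtain ⟨t, ht, ht'⟩ := hTc b⁻¹ (B.inv_mem hb)
  refine ⟨a * s⁻¹, hs', s * f * t⁻¹, ?_, (b⁻¹ * t⁻¹)⁻¹, B₁.inv_mem ht', by group⟩
  rw [hfin.mem_toFinset]
  exact ⟨(s, f, t), ⟨hs, hf, ht⟩, rfl⟩

theorem almnil_main {G : Type u} [Group G] (hLG : LG G) (A B : Subgroup G)
    (hA : AP A) (hB : AP B) (hnA : VNil A) (hnB : VNil B) (hdc : DC ⊤ A B) : AP G := by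
  classical
  by_contra hG
  obtain ⟨X, _, A', B', hdc', hA', hB', hnA', hnB', hrf, hfg, hN, N₀, hN₀, hinf, hNfg, -, hno⟩ :=
    redQ vnil_fq A B ⟨hdc, hA, hB, hnA, hnB, hLG, hG⟩
  obtain ⟨A₀, hA₀, hA₀n⟩ := hnA'
  obtain ⟨B₀, hB₀, hB₀n⟩ := hnB'
  let A₁ : Subgroup X := A₀.map A'.subtype
  let B₁ : Subgroup X := B₀.map B'.subtype
  have hA₁A : A₁ ≤ A' := map_subtype_le A₀
  have hB₁B : B₁ ≤ B' := map_subtype_le B₀
  have hrA : A₁.relIndex A' ≠ 0 := by
    have : A₁.subgroupOf A' = A₀ := by
      rw [subgroupOf, comap_map_eq_self_of_injective A'.subtype_injective]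
    rw [relIndex, this]
    exact hA₀.index_ne_zero
  have hrB : B₁.relIndex B' ≠ 0 := by
    have : B₁.subgroupOf B' = B₀ := by
      rw [subgroupOf, comap_map_eq_self_of_injective B'.subtype_injective]
    rw [relIndex, this]
    exact hB₀.index_ne_zero
  have hA₁n : Group.IsNilpotent A₁ := by
    have := hA₀n
    exact Group.nilpotent_of_surjective (A'.subtype.subgroupMap A₀)
      (A'.subtype.subgroupMap_surjective A₀)
  have hB₁n : Group.IsNilpotent B₁ := by
    have := hB₀n
    exact Group.nilpotent_of_surjective (B'.subtype.subgroupMap B₀)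
      (B'.subtype.subgroupMap_surjective B₀)
  have hA₁ : AP A₁ := AP.mono hA₁A hA'
  have hB₁ : AP B₁ := AP.mono hB₁B hB'
  obtain ⟨F, hF⟩ := cover_fi hdc' hrA hrB
  obtain ⟨f, -, U, hU, hUf, hcov⟩ := x3_cover F hF
  have hB₂ : AP (cj f B₁) := ap_cj hB₁ f
  have hB₂n : Group.IsNilpotent (cj f B₁) := by
    have := hB₁n
    exact Group.nilpotent_of_surjective ((MulAut.conj f).toMonoidHom.subgroupMap B₁)
      ((MulAut.conj f).toMonoidHom.subgroupMap_surjective B₁)
  have hrfL : ∀ (L : Subgroup X) [L.Normal], RF (X ⧸ L) := by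
    intro L hL
    by_cases hLb : L = ⊥
    · subst hLb
      intro g hg
      obtain ⟨x, rfl⟩ := QuotientGroup.mk_surjective g
      have hx : x ≠ 1 := by
        rintro rfl
        exact hg rfl
      obtain ⟨N, hNn, hNf, hxN⟩ := hrf x hx
      refine ⟨N.map (QuotientGroup.mk' ⊥), hNn.map _ (QuotientGroup.mk'_surjective _), ?_, ?_⟩
      · refine ⟨?_⟩
        have h1 : (N.map (QuotientGroup.mk' (⊥ : Subgroup X))).comap (QuotientGroup.mk' ⊥) = N := by
          rw [comap_map_eq, QuotientGroup.ker_mk', sup_bot_eq]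
        rw [← index_comap_of_surjective _ (QuotientGroup.mk'_surjective (⊥ : Subgroup X)), h1]
        exact hNf.index_ne_zero
      · rintro ⟨y, hy, hyx⟩
        apply hxN
        have h1 : y⁻¹ * x ∈ (⊥ : Subgroup X) := QuotientGroup.eq.1 hyx
        rw [mem_bot, inv_mul_eq_one] at h1
        rwa [← h1]
    · exact (hN L hLb).2.rf
  obtain ⟨R, hR⟩ := secU_of_cov A₁ (cj f B₁) U hA₁ hB₂ hrfL hcov
  refine x5_main hfg hrf (fun N _ h => (hN N h).2) N₀ hinf hNfg hno hR hU hUf le_rfl ?_
  intro J hJ hJf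
  have hfin : Finite (X ⧸ J) := finite_quotient_of_finiteIndex
  have hUn : (U.map (QuotientGroup.mk' J)).Normal := hU.map _ (QuotientGroup.mk'_surjective J)
  refine sol_of_le (A₁.map (QuotientGroup.mk' J)) ((cj f B₁).map (QuotientGroup.mk' J)) _ ?_ ?_ ?_
  · have := hA₁n
    exact Group.nilpotent_of_surjective ((QuotientGroup.mk' J).subgroupMap A₁)
      ((QuotientGroup.mk' J).subgroupMap_surjective A₁)
  · have := hB₂n
    exact Group.nilpotent_of_surjective ((QuotientGroup.mk' J).subgroupMap (cj f B₁))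
      ((QuotientGroup.mk' J).subgroupMap_surjective (cj f B₁))
  · rintro _ ⟨u, hu, rfl⟩
    obtain ⟨x, hx, y, hy, j, hj, rfl⟩ := hcov J hJ hJf u hu
    refine ⟨QuotientGroup.mk' J x, mem_map_of_mem _ hx, QuotientGroup.mk' J y,
      mem_map_of_mem _ hy, ?_⟩
    rw [map_mul, map_mul]
    have h1 : QuotientGroup.mk' J j = 1 := (QuotientGroup.eq_one_iff j).2 hj
    rw [h1, mul_one]

/-- an almost polycyclic product of two nilpotent groups is soluble -/
theorem nil_sol {G : Type u} [Group G] (hG : AP G) (A B : Subgroup G)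
    (hA : Group.IsNilpotent A) (hB : Group.IsNilpotent B)
    (h : ∀ g : G, ∃ a ∈ A, ∃ b ∈ B, g = a * b) : Group.IsSolvable G := by
  obtain ⟨-, S, hS, hsol⟩ := hG
  have hfin : Finite (G ⧸ S.normalCore) := finite_quotient_of_finiteIndex
  have h1 : Group.IsSolvable (G ⧸ S.normalCore) := by
    refine Pool.Agent.H71.KW.isSolvable_of_mul (A.map (QuotientGroup.mk' S.normalCore))
      (B.map (QuotientGroup.mk' S.normalCore)) ?_ ?_ ?_
    · have := hA
      exact Group.nilpotent_of_surjective ((QuotientGroup.mk' S.normalCore).subgroupMap A)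
        ((QuotientGroup.mk' S.normalCore).subgroupMap_surjective A)
    · have := hB
      exact Group.nilpotent_of_surjective ((QuotientGroup.mk' S.normalCore).subgroupMap B)
        ((QuotientGroup.mk' S.normalCore).subgroupMap_surjective B)
    · intro x
      obtain ⟨g, rfl⟩ := QuotientGroup.mk_surjective x
      obtain ⟨a, ha, b, hb, rfl⟩ := h g
      exact ⟨_, mem_map_of_mem (QuotientGroup.mk' S.normalCore) ha, _,
        mem_map_of_mem (QuotientGroup.mk' S.normalCore) hb, rfl⟩
  have h2 : Group.IsSolvable S.normalCore := by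
    have := hsol
    exact Group.isSolvable_of_isSolvable_injective (f := Subgroup.inclusion (normalCore_le S))
      (Subgroup.inclusion_injective (normalCore_le S))
  exact Group.isSolvable_of_ker_le_range S.normalCore.subtype (QuotientGroup.mk' S.normalCore)
    (by rw [QuotientGroup.ker_mk', Subgroup.range_subtype])

end H36.PD
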