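import Pool.Agent.H36.PD.RankD

/-!
# MP_e8b852_al, Part III: no exact equivariant ultrametric on the lines of a minimal counterexample

Proof of Lemma E.  `A` stands for the line `(1, false)`.  Some `f` has `ρ = D(A, fB) < ∞`
(otherwise `D = ∞` for lines of different sides, hence for all lines).  The set
`S = {g : nu(g) ρ + b(g) = ρ, D(A, gA) > ρ}` is a subgroup, a finite union of double cosets of
`A₀ = {a ∈ A : nu(a) ρ + b(a) = ρ}` and of `f B f⁻¹ ⊓ S`; `A₀` has infinite index in `A`, so `S` is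
almost polycyclic.  `K` is the union of the groups `t⁻ⁿ (K ⊓ S) tⁿ`.
-/

set_option autoImplicit false

namespace H36.PD

open H36.PP Subgroup H84.PG

theorem LemE_lt {p q : ℝ} (hq : 0 < q) {x : ℝ} {y : EReal} (h : (x : EReal) < y) :
    ((p + q * x : ℝ) : EReal) < (p : EReal) + (q : EReal) * y := by
  induction y using EReal.rec with
  | bot => exact absurd h not_lt_bot
  | coe y =>
    have h1 : x < y := by exact_mod_cast h
    have h2 : p + q * x < p + q * y := by
      have := mul_lt_mul_of_pos_left h1 hq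
      linarith
    exact_mod_cast h2
  | top =>
    rw [EReal.coe_mul_top_of_pos hq, EReal.coe_add_top]
    exact EReal.coe_lt_top _

theorem lemE_proof {G : Type*} [Group G] {A B : Subgroup G} (h : MinD G A B)
    (nu b : G → ℝ) (hpos : ∀ g, 0 < nu g) (hnu : ∀ g h, nu (g * h) = nu g * nu h)
    (hb : ∀ g h, b (g * h) = b g + nu g * b h)
    (K : Subgroup G) [K.Normal] (hK : ∀ g, g ∈ K ↔ nu g = 1 ∧ b g = 0) (hq : AP (G ⧸ K))
    (D : G × Bool → G × Bool → EReal) (hD : UM A B D)
    (heq : ∀ g x y, D (ltr g x) (ltr g y) = (b g : EReal) + (nu g : EReal) * D x y)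
    (hne : ∃ x y, D x y ≠ ⊤) (t : G) (ht : t ∈ A) (ht1 : nu t = 1) (ht2 : 0 < b t) : False := by
  classical
  obtain ⟨-, -, F, hF, -, hcov⟩ := h.dc
  have hnu1 : nu 1 = 1 := by
    have h1 := hnu 1 1
    rw [mul_one] at h1
    have h2 := hpos 1
    have h3 : nu 1 * (nu 1 - 1) = 0 := by linarith
    rcases mul_eq_zero.1 h3 with h4 | h4
    · linarith
    · linarith
  have hb1 : b 1 = 0 := by
    have h1 := hb 1 1
    rw [mul_one, hnu1] at h1
    linarith
  -- basic facts on the depth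
  have hAB : ∀ (g a : G), a ∈ A → ∀ y, D (g * a, false) y = D (g, false) y :=
    fun g a ha y => hD.comp g false a ha y
  have hBB : ∀ (g a : G), a ∈ B → ∀ y, D (g * a, true) y = D (g, true) y :=
    fun g a ha y => hD.comp g true a ha y
  have hA1 : ∀ (a : G), a ∈ A → ∀ y, D (a, false) y = D (1, false) y := by
    intro a ha y
    have := hAB 1 a ha y
    rwa [one_mul] at this
  -- translation of the base line
  have htr : ∀ (a : G), a ∈ A → ∀ (g : G) (s : Bool), D (1, false) (a * g, s) =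
      (b a : EReal) + (nu a : EReal) * D (1, false) (g, s) := by
    intro a ha g s
    have h1 := heq a (1, false) (g, s)
    simp only [ltr, mul_one] at h1
    rw [hA1 a ha] at h1
    exact h1
  -- (i)
  obtain ⟨f, hfF, hft⟩ : ∃ f : G, f ∈ F ∧ D (1, false) (f, true) ≠ ⊤ := by
    by_contra hc
    push Not at hc
    have h1 : ∀ g : G, D (1, false) (g, true) = ⊤ := by
      intro g
      obtain ⟨a, ha, f, hf, b', hb', rfl⟩ := hcov g trivial
      rw [hD.symm, hBB _ _ hb', hD.symm, htr a ha, hc f hf, EReal.coe_mul_top_of_pos (hpos a),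
        EReal.coe_add_top]
    have h2 : ∀ x y : G, D (x, false) (y, true) = ⊤ := by
      intro x y
      have h3 := heq x (1, false) (x⁻¹ * y, true)
      simp only [ltr, mul_one, mul_inv_cancel_left] at h3
      rw [h3, h1, EReal.coe_mul_top_of_pos (hpos x), EReal.coe_add_top]
    have h3 : ∀ x y : G, D (x, true) (y, false) = ⊤ := fun x y => by rw [hD.symm, h2]
    obtain ⟨⟨x, s⟩, ⟨y, s'⟩, hxy⟩ := hne
    apply hxy
    cases s <;> cases s'
    · have h4 := hD.tri (x, false) (1, true) (y, false)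
      rw [h2, h3, min_self] at h4
      exact top_le_iff.mp h4
    · exact h2 x y
    · exact h3 x y
    · have h4 := hD.tri (x, true) (1, false) (y, true)
      rw [h2, h3, min_self] at h4
      exact top_le_iff.mp h4
  obtain ⟨ρ, hρ⟩ : ∃ ρ : ℝ, D (1, false) (f, true) = (ρ : EReal) := by
    have h1 := hD.bot (1, false) (f, true)
    exact ⟨_, (EReal.coe_toReal hft h1).symm⟩
  -- the subgroup
  let S : Subgroup G :=
    { carrier := {g | b g + nu g * ρ = ρ ∧ (ρ : EReal) < D (1, false) (g, false)}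
      mul_mem' := by
        rintro g k ⟨hg1, hg2⟩ ⟨hk1, hk2⟩
        refine ⟨?_, ?_⟩
        · rw [hb, hnu]
          calc b g + nu g * b k + nu g * nu k * ρ = b g + nu g * (b k + nu k * ρ) := by ring
            _ = ρ := by rw [hk1, hg1]
        · have h1 := hD.tri (1, false) (g, false) (g * k, false)
          refine lt_of_lt_of_le (lt_min hg2 ?_) h1
          have h2 := heq g (1, false) (k, false)
          simp only [ltr, mul_one] at h2
          rw [h2]
          have h3 := LemE_lt (p := b g) (hpos g) hk2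
          rwa [hg1] at h3
      one_mem' := by
        refine ⟨by rw [hb1, hnu1]; ring, ?_⟩
        rw [hD.refl]
        exact EReal.coe_lt_top _
      inv_mem' := by
        rintro g ⟨hg1, hg2⟩
        have h1 := hb g⁻¹ g
        have h2 := hnu g⁻¹ g
        rw [inv_mul_cancel, hb1] at h1
        rw [inv_mul_cancel, hnu1] at h2
        have h5 : b g⁻¹ + nu g⁻¹ * ρ = ρ := by
          have h3 : b g⁻¹ = - (nu g⁻¹ * b g) := by linarith
          have h4 : ρ = b g + nu g * ρ := hg1.symm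
          calc b g⁻¹ + nu g⁻¹ * ρ = - (nu g⁻¹ * b g) + nu g⁻¹ * (b g + nu g * ρ) := by
                rw [← h4, h3]
            _ = (nu g⁻¹ * nu g) * ρ := by ring
            _ = ρ := by rw [← h2, one_mul]
        refine ⟨h5, ?_⟩
        have h6 := heq g⁻¹ (g, false) (1, false)
        simp only [ltr, mul_one, inv_mul_cancel] at h6
        rw [h6, hD.symm (g, false)]
        have h7 := LemE_lt (p := b g⁻¹) (hpos g⁻¹) hg2
        rwa [h5] at h7 }
  have hSmem : ∀ g, g ∈ S ↔ b g + nu g * ρ = ρ ∧ (ρ : EReal) < D (1, false) (g, false) :=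
    fun g => Iff.rfl
  let A0 : Subgroup G := A ⊓ S
  have hA0 : ∀ a, a ∈ A → b a + nu a * ρ = ρ → a ∈ A0 := by
    intro a ha h1
    refine ⟨ha, h1, ?_⟩
    rw [hD.symm, hA1 a ha, hD.refl]
    exact EReal.coe_lt_top _
  let B' : Subgroup G := B.map (MulAut.conj f).toMonoidHom
  have hB'mem : ∀ x ∈ B, f * x * f⁻¹ ∈ B' := fun x hx => ⟨x, hx, rfl⟩
  -- the decomposition of `S`
  have hdec : ∀ (g a f1 b' : G), g ∈ S → a ∈ A → b' ∈ B → g * f = a * f1 * b' →
      (b a : EReal) + (nu a : EReal) * D (1, false) (f1, true) = (ρ : EReal) := by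
    intro g a f1 b' hg ha hb' e
    rw [← htr a ha, hD.symm, ← hBB _ _ hb', ← e, hD.symm]
    -- `D(A, g f B) = ρ`
    have h1 : D (g, false) (g * f, true) = (ρ : EReal) := by
      have h2 := heq g (1, false) (f, true)
      simp only [ltr, mul_one] at h2
      rw [h2, hρ]
      have := hg.1
      exact_mod_cast congrArg (fun r : ℝ => (r : EReal)) this
    have h2 := hg.2
    apply le_antisymm
    · by_contra hc
      push Not at hc
      have h3 := hD.tri (g, false) (1, false) (g * f, true)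
      rw [h1, hD.symm (g, false)] at h3
      exact absurd h3 (not_le.mpr (lt_min h2 hc))
    · have h3 := hD.tri (1, false) (g, false) (g * f, true)
      rw [h1] at h3
      exact le_trans (le_min h2.le le_rfl) h3
  have hDC : DC S A0 (B' ⊓ S) := by
    refine ⟨inf_le_right, inf_le_right, ?_⟩
    have hch : ∀ f1 : G, ∃ (s a b' : G), (∃ a' ∈ A, ∃ b'' ∈ B, a' * f1 * b'' * f⁻¹ ∈ S) →
        a ∈ A ∧ b' ∈ B ∧ s = a * f1 * b' * f⁻¹ ∧ s ∈ S := by
      intro f1
      by_cases hc : ∃ a' ∈ A, ∃ b'' ∈ B, a' * f1 * b'' * f⁻¹ ∈ S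
      · obtain ⟨a', ha', b'', hb'', hm⟩ := hc
        exact ⟨_, a', b'', fun _ => ⟨ha', hb'', rfl, hm⟩⟩
      · exact ⟨1, 1, 1, fun h' => absurd h' hc⟩
    choose s a0 b0 hs using hch
    refine ⟨s '' F ∩ S, (hF.image s).inter_of_left _, Set.inter_subset_right, fun g hg => ?_⟩
    obtain ⟨a, ha, f1, hf1, b', hb', e⟩ := hcov (g * f) trivial
    have e1 : g = a * f1 * b' * f⁻¹ := by rw [← e]; group
    obtain ⟨ha0, hb0, hs1, hs2⟩ := hs f1 ⟨a, ha, b', hb', by rw [← e1]; exact hg⟩
    have h1 := hdec g a f1 b' hg ha hb' e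
    have h2 := hdec (s f1) (a0 f1) f1 (b0 f1) hs2 ha0 hb0 (by rw [hs1]; group)
    -- the element `a * a0⁻¹` fixes `ρ`
    have h3 : a * (a0 f1)⁻¹ ∈ A0 := by
      refine hA0 _ (A.mul_mem ha (A.inv_mem ha0)) ?_
      have h4 : D (1, false) (f1, true) ≠ ⊤ := by
        intro hc
        rw [hc, EReal.coe_mul_top_of_pos (hpos a), EReal.coe_add_top] at h1
        exact EReal.coe_ne_top _ h1.symm
      obtain ⟨x, hx⟩ : ∃ x : ℝ, D (1, false) (f1, true) = (x : EReal) :=
        ⟨_, (EReal.coe_toReal h4 (hD.bot _ _)).symm⟩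
      rw [hx] at h1 h2
      have h5 : b a + nu a * x = ρ := by exact_mod_cast h1
      have h6 : b (a0 f1) + nu (a0 f1) * x = ρ := by exact_mod_cast h2
      have h7 := hb (a * (a0 f1)⁻¹) (a0 f1)
      have h8 := hnu (a * (a0 f1)⁻¹) (a0 f1)
      rw [inv_mul_cancel_right] at h7 h8
      rw [h7, h8] at h5
      calc b (a * (a0 f1)⁻¹) + nu (a * (a0 f1)⁻¹) * ρ
          = b (a * (a0 f1)⁻¹) + nu (a * (a0 f1)⁻¹) * (b (a0 f1) + nu (a0 f1) * x) := by rw [h6]
        _ = b (a * (a0 f1)⁻¹) + nu (a * (a0 f1)⁻¹) * b (a0 f1) +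
            nu (a * (a0 f1)⁻¹) * nu (a0 f1) * x := by ring
        _ = ρ := h5
    refine ⟨a * (a0 f1)⁻¹, h3, s f1, ⟨⟨f1, hf1, rfl⟩, hs2⟩,
      (s f1)⁻¹ * (a * (a0 f1)⁻¹)⁻¹ * g, ⟨?_, ?_⟩, by group⟩
    · have e2 : (s f1)⁻¹ * (a * (a0 f1)⁻¹)⁻¹ * g = f * ((b0 f1)⁻¹ * b') * f⁻¹ := by
        rw [hs1, e1]
        group
      rw [e2]
      exact hB'mem _ (B.mul_mem (B.inv_mem hb0) hb')
    · exact S.mul_mem (S.mul_mem (S.inv_mem hs2) (S.inv_mem h3.2)) hg
  -- powers of `t`
  have htn : ∀ n : ℕ, nu (t ^ n) = 1 ∧ b (t ^ n) = n * b t := by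
    intro n
    induction n with
    | zero => simp [hnu1, hb1]
    | succ n ih =>
      rw [pow_succ, hnu, hb, ih.1, ih.2, ht1]
      refine ⟨by ring, ?_⟩
      push_cast
      ring
  have hA0i : A0.relIndex A = 0 := by
    by_contra hne'
    obtain ⟨n, hn, -, hm⟩ := exists_pow_mem_of_relIndex_ne_zero hne' ht
    have h1 := hm.1.2.1
    rw [(htn n).1, (htn n).2] at h1
    have h2 : (n : ℝ) * b t = 0 := by linarith
    rcases mul_eq_zero.1 h2 with h4 | h4
    · exact hn.ne' (by exact_mod_cast h4)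
    · linarith
  have hapB' : AP B' := AP.of_surjective ((MulAut.conj f).toMonoidHom.subgroupMap B)
    ((MulAut.conj f).toMonoidHom.subgroupMap_surjective B) h.apB
  have hhtB' : PP.ht B' = PP.ht B :=
    (ht_congr (B.equivMapOfInjective (MulAut.conj f).toMonoidHom (MulAut.conj f).injective)).symm
  have hS : AP S := by
    refine h.min S A0 (B' ⊓ S) hDC (Emb.of_le inf_le_left)
      ((Emb.of_le inf_le_left).trans (Emb.map _ (MulAut.conj f).injective B)) ?_
    have h1 : PP.ht A0 < PP.ht A := ht_lt h.apA inf_le_left hA0i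
    have h2 : PP.ht (B' ⊓ S : Subgroup G) ≤ PP.ht B' := ht_mono hapB' inf_le_left
    omega
  -- conjugation by `t`
  have hconj : ∀ (n : ℕ) (g : G), D (1, false) (t ^ n * g * (t ^ n)⁻¹, false) =
      ((n * b t : ℝ) : EReal) + D (1, false) (g, false) := by
    intro n g
    have htn' : t ^ n ∈ A := A.pow_mem ht n
    rw [hD.symm, hAB _ _ (A.inv_mem htn'), hD.symm, htr _ htn', (htn n).1, (htn n).2]
    simp
  refine h.nap (union_dc h.dc h.apA h.apB K (K ⊓ S) hq inf_le_left
    (AP.mono inf_le_right hS) t⁻¹ ?_ ?_)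
  · rintro q ⟨hqK, hqS⟩
    rw [inv_inv]
    have hqK' : t * q * t⁻¹ ∈ K := ‹K.Normal›.conj_mem q hqK t
    refine ⟨hqK', ?_, ?_⟩
    · obtain ⟨h1, h2⟩ := (hK _).mp hqK'
      rw [h1, h2]
      ring
    · have h1 := hconj 1 q
      rw [pow_one, Nat.cast_one, one_mul] at h1
      rw [h1]
      have h2 := LemE_lt (p := b t) (q := 1) one_pos hqS.2
      simp only [EReal.coe_one, one_mul] at h2
      refine lt_of_le_of_lt ?_ h2
      have : ρ ≤ b t + ρ := by linarith
      exact_mod_cast this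
  · intro k hk
    have hcoe : ∃ n : ℕ, (ρ : EReal) < ((n * b t : ℝ) : EReal) + D (1, false) (k, false) := by
      have h1 := hD.bot (1, false) (k, false)
      induction hx : D (1, false) (k, false) using EReal.rec with
      | bot => exact absurd hx h1
      | coe x =>
        obtain ⟨n, hn⟩ := exists_nat_gt ((ρ - x) / b t)
        refine ⟨n, ?_⟩
        have h2 : ρ - x < n * b t := (div_lt_iff₀ ht2).mp hn
        have h3 : ρ < n * b t + x := by linarith
        exact_mod_cast h3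
      | top =>
        refine ⟨0, ?_⟩
        rw [EReal.coe_add_top]
        exact EReal.coe_lt_top _
    obtain ⟨n, hn⟩ := hcoe
    refine ⟨n, ?_⟩
    have e1 : (t⁻¹ ^ n)⁻¹ * k * t⁻¹ ^ n = t ^ n * k * (t ^ n)⁻¹ := by
      rw [inv_pow, inv_inv]
    rw [e1]
    have hkK' : t ^ n * k * (t ^ n)⁻¹ ∈ K := ‹K.Normal›.conj_mem k hk _
    refine ⟨hkK', ?_, ?_⟩
    · obtain ⟨h1, h2⟩ := (hK _).mp hkK'
      rw [h1, h2]
      ring
    · rw [hconj]
      exact hn

end H36.PD
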