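import Pool.Agent.H36.PP.SolRank
import Pool.Agent.H36.PP.Union
import Pool.Agent.H36.PD.AffC
import Pool.Agent.H84.PG.Defs

/-!
# MP_e8b852_al: finite unions of double cosets and soluble subgroups of finite rank (Part II)

`ab_rank'`    `M` normal abelian of finite rank, `G` a finite union of double cosets `A f B`,
              `A` almost polycyclic, `B` with the maximal condition: `M` is finitely generated
`sol_rank'`   `R` normal soluble of finite rank, `G ⧸ R` almost polycyclic: `G` is almost polycyclic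
`union_dc`    the kernel is a union of conjugates of an almost polycyclic subgroup
-/

set_option autoImplicit false

namespace H36.PD

open H36.PP Subgroup H84.PG
open scoped commutatorElement

variable {G H : Type*} [Group G] [Group H]

/-- images of finite unions of double cosets -/
theorem dc_map {X A B : Subgroup G} (h : DC X A B) (f : G →* H) :
    DC (X.map f) (A.map f) (B.map f) := by
  obtain ⟨hA, hB, F, hF, hFX, hc⟩ := h
  refine ⟨map_mono hA, map_mono hB, f '' F, hF.image f, ?_, ?_⟩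
  · rintro _ ⟨x, hx, rfl⟩
    exact mem_map_of_mem f (hFX hx)
  · rintro _ ⟨x, hx, rfl⟩
    obtain ⟨a, ha, g, hg, b, hb, rfl⟩ := hc x hx
    exact ⟨f a, mem_map_of_mem f ha, f g, ⟨g, hg, rfl⟩, f b, mem_map_of_mem f hb, by
      rw [map_mul, map_mul]⟩

theorem ab_rank' {A B : Subgroup G} (hf : DC ⊤ A B) (hA : AP A)
    (hB : PP.Max B) (M : Subgroup G) [M.Normal] (hc : ∀ x ∈ M, ∀ y ∈ M, x * y = y * x) (r : ℕ)
    (hr : FRk M r) : M.FG := by
  classical
  letI : CommGroup M := { (inferInstance : Group M) with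
    mul_comm := fun x y => Subtype.ext (hc x x.2 y y.2) }
  let A' : Subgroup G := A ⊓ (B ⊔ M)
  let N0 : Subgroup M := (M ⊓ B).subgroupOf M
  have hN0 : ∀ x : M, x ∈ N0 ↔ (x : G) ∈ B := by
    intro x
    rw [Subgroup.mem_subgroupOf, Subgroup.mem_inf]
    exact ⟨fun h => h.2, fun h => ⟨x.2, h⟩⟩
  -- conjugation
  have hconj : ∀ a : A', N0 ≤ N0.comap (MulAut.conjNormal (a : G) : M ≃* M).toMonoidHom := by
    intro a x hx
    rw [Subgroup.mem_comap, hN0]
    show ((MulAut.conjNormal (a : G) x : M) : G) ∈ B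
    rw [MulAut.conjNormal_apply]
    exact (SolRank_conj hc a.2 ⟨x.2, (hN0 x).mp hx⟩).2
  let φ : A' → (M ⧸ N0 →* M ⧸ N0) := fun a =>
    QuotientGroup.map N0 N0 (MulAut.conjNormal (a : G) : M ≃* M).toMonoidHom (hconj a)
  let act : A' → (Additive (M ⧸ N0) →+ Additive (M ⧸ N0)) := fun a => (φ a).toAdditive
  have hact : ∀ (a : A') (x : M), act a (Additive.ofMul (QuotientGroup.mk x : M ⧸ N0)) =
      Additive.ofMul (QuotientGroup.mk (MulAut.conjNormal (a : G) x) : M ⧸ N0) := fun a x => rfl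
  -- the derivation
  have hdec : ∀ a : A', ∃ m : M, ∃ b ∈ B, (a : G) = m * b := by
    intro a
    have h2 : (a : G) ∈ M ⊔ B := by
      rw [sup_comm]
      exact a.2.2
    obtain ⟨m, hm, b, hb, h⟩ := mem_sup_of_normal_left.mp h2
    exact ⟨⟨m, hm⟩, b, hb, h.symm⟩
  choose mm bb hbb hmb using hdec
  let δ : A' → Additive (M ⧸ N0) := fun a => Additive.ofMul (QuotientGroup.mk (mm a))
  have hδu : ∀ (a : A') (m : M) (b : G), b ∈ B → (a : G) = m * b →
      δ a = Additive.ofMul (QuotientGroup.mk m : M ⧸ N0) := by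
    intro a m b hb h
    show Additive.ofMul (QuotientGroup.mk (mm a) : M ⧸ N0) = Additive.ofMul (QuotientGroup.mk m)
    congr 1
    rw [QuotientGroup.eq, hN0]
    have h1 := hmb a
    rw [h] at h1
    have h3 : (mm a : G)⁻¹ * (m : G) = bb a * b⁻¹ := by
      rw [inv_mul_eq_iff_eq_mul, ← mul_assoc, ← h1]
      group
    simp only [Subgroup.coe_mul, Subgroup.coe_inv]
    rw [h3]
    exact B.mul_mem (hbb a) (B.inv_mem hb)
  -- conjugation by an element of `A'` is conjugation by the element of `B`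
  have hcb : ∀ (g : A') (x : M), (g : G) * (x : G) * (g : G)⁻¹ = bb g * (x : G) * (bb g)⁻¹ := by
    intro g x
    have e3 : (bb g * (x : G) * (bb g)⁻¹) ∈ M := ‹M.Normal›.conj_mem _ x.2 _
    have e4 := hc (mm g : G) (mm g).2 _ e3
    calc (g : G) * (x : G) * (g : G)⁻¹
        = (mm g : G) * (bb g * (x : G) * (bb g)⁻¹) * (mm g : G)⁻¹ := by
          rw [hmb g]
          group
      _ = (bb g * (x : G) * (bb g)⁻¹) * (mm g : G) * (mm g : G)⁻¹ := by rw [e4]
      _ = bb g * (x : G) * (bb g)⁻¹ := by group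
  have hδ : ∀ g h : A', δ (g * h) = δ g + act g (δ h) := by
    intro g h
    have e1 : ((g * h : A') : G) =
        ((mm g * MulAut.conjNormal (g : G) (mm h) : M) : G) * (bb g * bb h) := by
      rw [Subgroup.coe_mul, Subgroup.coe_mul, MulAut.conjNormal_apply, hcb]
      calc (g : G) * (h : G) = (mm g : G) * bb g * ((mm h : G) * bb h) := by rw [← hmb, ← hmb]
        _ = (mm g : G) * (bb g * (mm h : G) * (bb g)⁻¹) * (bb g * bb h) := by group
    rw [hδu (g * h) (mm g * MulAut.conjNormal (g : G) (mm h)) (bb g * bb h)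
      (B.mul_mem (hbb g) (hbb h)) e1]
    rfl
  have hA'le : A' ≤ A := inf_le_left
  have hA' : AP A' := AP.mono hA'le hA
  have haff : Aff act δ (⊤ : AddSubgroup (Additive (M ⧸ N0))) := by
    refine ⟨?_, ?_, hδ, fun _ => trivial, fun _ _ _ => trivial, ?_⟩
    · intro x
      induction x using Additive.rec with | _ x
      induction x using QuotientGroup.induction_on with | _ x
      change act 1 (Additive.ofMul (QuotientGroup.mk x)) = _
      rw [hact]
      congr 2
      apply Subtype.ext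
      rw [MulAut.conjNormal_apply]
      simp
    · intro g h x
      induction x using Additive.rec with | _ x
      induction x using QuotientGroup.induction_on with | _ x
      change act (g * h) (Additive.ofMul (QuotientGroup.mk x)) =
        act g (act h (Additive.ofMul (QuotientGroup.mk x)))
      rw [hact, hact, hact]
      congr 2
      apply Subtype.ext
      rw [MulAut.conjNormal_apply, MulAut.conjNormal_apply, MulAut.conjNormal_apply]
      simp only [Subgroup.coe_mul]
      group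
    · obtain ⟨-, -, F, hF, -, hcov⟩ := hf
      have hch : ∀ f : G, ∃ (w : M) (a b : G), (∃ a' ∈ A, ∃ b' ∈ B, a' * f * b' ∈ M) →
          a ∈ A ∧ b ∈ B ∧ (w : G) = a * f * b := by
        intro f
        by_cases h : ∃ a' ∈ A, ∃ b' ∈ B, a' * f * b' ∈ M
        · obtain ⟨a', ha', b', hb', hm⟩ := h
          exact ⟨⟨_, hm⟩, a', b', fun _ => ⟨ha', hb', rfl⟩⟩
        · exact ⟨1, 1, 1, fun h' => absurd h' h⟩
      choose w a0 b0 hw using hch
      refine ⟨hF.toFinset.image
        (fun f => Additive.ofMul (QuotientGroup.mk (w f) : M ⧸ N0)), fun m _ => ?_⟩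
      induction m using Additive.rec with | _ m
      induction m using QuotientGroup.induction_on with | _ m
      obtain ⟨a, ha, f, hfF, b, hb, hm⟩ := hcov (m : G) trivial
      obtain ⟨ha0, hb0, hwf⟩ := hw f ⟨a, ha, b, hb, by rw [← hm]; exact m.2⟩
      -- `m = α w β`
      have e1 : (m : G) = (a * (a0 f)⁻¹) * (w f : G) * ((b0 f)⁻¹ * b) := by
        rw [hm, hwf]
        group
      have hβ : (b0 f)⁻¹ * b ∈ B := B.mul_mem (B.inv_mem hb0) hb
      have hα : a * (a0 f)⁻¹ ∈ A' := by
        refine ⟨A.mul_mem ha (A.inv_mem ha0), ?_⟩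
        have e2 : a * (a0 f)⁻¹ = (m : G) * ((b0 f)⁻¹ * b)⁻¹ * (w f : G)⁻¹ := by
          rw [e1]
          group
        rw [e2]
        exact mul_mem (mul_mem (mem_sup_right m.2) (mem_sup_left (B.inv_mem hβ)))
          (mem_sup_right (M.inv_mem (w f).2))
      refine ⟨⟨_, hα⟩, _, Finset.mem_image_of_mem _ (hF.mem_toFinset.mpr hfF), ?_⟩
      change Additive.ofMul (QuotientGroup.mk m : M ⧸ N0) = _ + act _ (Additive.ofMul _)
      rw [hact]
      change Additive.ofMul (QuotientGroup.mk m : M ⧸ N0) =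
        Additive.ofMul (QuotientGroup.mk (mm ⟨_, hα⟩ * MulAut.conjNormal (a * (a0 f)⁻¹) (w f)))
      congr 1
      rw [QuotientGroup.eq, hN0]
      have e3 := hcb ⟨_, hα⟩ (w f)
      have e4 := hmb ⟨_, hα⟩
      have e7 := hbb ⟨_, hα⟩
      simp only at e3 e4
      simp only [Subgroup.coe_mul, Subgroup.coe_inv, MulAut.conjNormal_apply]
      generalize (mm ⟨a * (a0 f)⁻¹, hα⟩ : M) = m1 at e3 e4 ⊢
      generalize bb ⟨a * (a0 f)⁻¹, hα⟩ = b1 at e3 e4 e7 ⊢
      have e5 : (m : G)⁻¹ * ((m1 : G) *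
          (a * (a0 f)⁻¹ * (w f : G) * (a * (a0 f)⁻¹)⁻¹)) =
          ((b0 f)⁻¹ * b)⁻¹ * b1⁻¹ := by
        rw [e3, e1, e4]
        group
      rw [e5]
      exact B.mul_mem (B.inv_mem hβ) (B.inv_mem e7)
  have hrk : ARk (Additive (M ⧸ N0)) r :=
    SolRank_ark (hr.of_surjective (QuotientGroup.mk' N0) (QuotientGroup.mk'_surjective N0))
  have hfg : AddGroup.FG (Additive (M ⧸ N0)) := haff.fg hA' r hrk
  have hfg' : Group.FG (M ⧸ N0) := GroupFG.iff_add_fg.mpr hfg
  have hmax1 : PP.Max N0 := by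
    let f : N0 →* B :=
      { toFun := fun x => ⟨((x : M) : G), (hN0 x.1).mp x.2⟩
        map_one' := rfl
        map_mul' := fun _ _ => rfl }
    refine PP.Max.of_injective f ?_ hB
    intro x y hxy
    apply Subtype.ext
    apply Subtype.ext
    exact congrArg (fun z : B => (z : G)) hxy
  have hmax2 : PP.Max (M ⧸ N0) := (AP.of_comm_fg (fun x y => mul_comm x y) hfg').1
  have hM : PP.Max M := PP.Max.ext N0 hmax1 hmax2
  have := hM ⊤
  exact (Group.fg_iff_subgroup_fg M).mp ⟨this⟩

/-- one step of the derived series -/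
theorem SolRank_step' {A B : Subgroup G} (hf : DC ⊤ A B) (hA : AP A)
    (hB : AP B) (N : Subgroup G) [N.Normal] (r : ℕ) (hr : FRk N r) (hq : AP (G ⧸ N)) :
    AP (G ⧸ ⁅N, N⁆) := by
  have hle : ⁅N, N⁆ ≤ N := Subgroup.commutator_le_left N N
  set K : Subgroup G := ⁅N, N⁆ with hK
  let π : G →* G ⧸ K := QuotientGroup.mk' K
  have hπ : Function.Surjective π := QuotientGroup.mk'_surjective K
  have hNn : (N.map π).Normal := Subgroup.Normal.map ‹_› π hπ
  have hAmap : AP (A.map π : Subgroup (G ⧸ K)) :=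
    AP.of_surjective (π.subgroupMap A) (π.subgroupMap_surjective A) hA
  have hBmap : AP (B.map π : Subgroup (G ⧸ K)) :=
    AP.of_surjective (π.subgroupMap B) (π.subgroupMap_surjective B) hB
  have hfact : DC ⊤ (A.map π) (B.map π) := by
    have := dc_map hf π
    rwa [← MonoidHom.range_eq_map, MonoidHom.range_eq_top.mpr hπ] at this
  have hcomm : ∀ x ∈ N.map π, ∀ y ∈ N.map π, x * y = y * x := by
    rintro _ ⟨x, hx, rfl⟩ _ ⟨y, hy, rfl⟩
    rw [← map_mul, ← map_mul]
    show (QuotientGroup.mk (x * y) : G ⧸ K) = QuotientGroup.mk (y * x)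
    rw [QuotientGroup.eq]
    have h1 : ⁅y⁻¹, x⁻¹⁆ ∈ K := Subgroup.commutator_mem_commutator (N.inv_mem hy) (N.inv_mem hx)
    have h2 : (x * y)⁻¹ * (y * x) = ⁅y⁻¹, x⁻¹⁆ := by
      rw [commutatorElement_def]
      group
    rw [h2]
    exact h1
  have hrM : FRk (N.map π : Subgroup (G ⧸ K)) r :=
    hr.of_surjective (π.subgroupMap N) (π.subgroupMap_surjective N)
  have hfg : (N.map π).FG := ab_rank' hfact hAmap hBmap.1 (N.map π) hcomm r hrM
  have hapM : AP (N.map π : Subgroup (G ⧸ K)) :=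
    AP.of_comm_fg (fun x y => Subtype.ext (hcomm x x.2 y y.2))
      ((Group.fg_iff_subgroup_fg _).mpr hfg)
  exact AP.quotient_of_le K N hle hapM hq

theorem sol_rank' {A B : Subgroup G} (hf : DC ⊤ A B) (hA : AP A)
    (hB : AP B) (R : Subgroup G) [R.Normal] (hs : Group.IsSolvable R) (r : ℕ) (hr : FRk R r)
    (hq : AP (G ⧸ R)) : AP G := by
  have key : ∀ n : ℕ, ∃ N : Subgroup G, ∃ _ : N.Normal,
      N = (derivedSeries R n).map R.subtype ∧ AP (G ⧸ N) := by
    intro n
    induction n with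
    | zero =>
      refine ⟨R, inferInstance, ?_, hq⟩
      rw [derivedSeries_zero, ← MonoidHom.range_eq_map, Subgroup.range_subtype]
    | succ n ih =>
      obtain ⟨N, hN, hNe, hap⟩ := ih
      refine ⟨⁅N, N⁆, inferInstance, ?_, ?_⟩
      · rw [derivedSeries_succ, Subgroup.map_commutator, ← hNe]
      · have hNR : N ≤ R := by
          rw [hNe]
          exact Subgroup.map_subtype_le _
        have hrN : FRk N r := hr.of_injective (Subgroup.inclusion hNR)
          (Subgroup.inclusion_injective hNR)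
        exact SolRank_step' hf hA hB N r hrN hap
  obtain ⟨n, hn'⟩ := hs.solvable
  obtain ⟨N, hN, hNe, hap⟩ := key n
  rw [hn', Subgroup.map_bot] at hNe
  have hapN : AP N := by
    haveI : Subsingleton N := by
      rw [hNe]
      infer_instance
    haveI : Finite N := Finite.of_subsingleton
    exact AP.of_finite
  exact AP.ext N hapN hap

/-- II.3: a kernel which is an ascending union of conjugates of an almost polycyclic group -/
theorem union_dc {A B : Subgroup G} (hf : DC ⊤ A B) (hA : AP A) (hB : AP B)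
    (K Q : Subgroup G) [K.Normal] (hGK : AP (G ⧸ K)) (hQK : Q ≤ K) (hQ : AP Q) (t : G)
    (h1 : ∀ q ∈ Q, t⁻¹ * q * t ∈ Q)
    (h2 : ∀ k ∈ K, ∃ n : ℕ, (t ^ n)⁻¹ * k * t ^ n ∈ Q) : AP G := by
  obtain ⟨R, hRn, hRK, hRi, hRs, r, hr⟩ := union_radical K Q hQK hQ t h1 h2
  have hfin : Finite (K.map (QuotientGroup.mk' R) : Subgroup (G ⧸ R)) := by
    have h7 : (R.map (QuotientGroup.mk' R)).relIndex
        (K.map (QuotientGroup.mk' R)) ≠ 0 := by
      rw [relIndex_map_map]
      rw [QuotientGroup.ker_mk', sup_idem, sup_eq_left.2 hRK]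
      exact hRi
    have h8 : R.map (QuotientGroup.mk' R) = ⊥ := by
      rw [Subgroup.map_eq_bot_iff, QuotientGroup.ker_mk']
    rw [h8, relIndex_bot_left] at h7
    exact Nat.finite_of_card_ne_zero h7
  have hGR : AP (G ⧸ R) := by
    refine AP.quotient_of_le R K hRK ?_ hGK
    exact AP.of_finite
  exact sol_rank' hf hA hB R hRs r hr hGR

end H36.PD
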